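import Pool.Agent.TH216.LR.Lr7
import Pool.Agent.W425.MM.Fin

set_option autoImplicit false

/-! The naive local motivic zeta function at the origin. -/

namespace Pool.Agent.TH216.LR

open MvPolynomial
open Pool.Agent.W428.MOT (K0 MK Pt Constr cls Lu ratRing)
open Pool.Agent.W375.MG (zetaG Good JetG good_units)
open Pool.Agent.W749.NM (zetaN JetN)
open Pool.Agent.W63.MTFin (C_mem)

/-- the naive local zeta function at the origin -/
theorem zetaN_mem0 {K : Type} [Field K] {N : ℕ} (f : MvPolynomial (Fin N) K)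
    (S : Set (ℤ × ℤ)) (h : zetaG f {0} {a | a ≠ 0} ∈ ratRing K S) :
    zetaN f 0 ∈ ratRing K S := by
  have he : ({fun i => algebraMap K (AlgebraicClosure K) ((0 : Fin N → K) i)} :
      Set (Pt K (Fin N))) = {0} := by
    congr 1
    funext i
    simp
  have h1 : zetaG f {fun i => algebraMap K (AlgebraicClosure K) ((0 : Fin N → K) i)}
      {a | a ≠ 0} ∈ ratRing K S := by
    rw [he]
    exact h
  set Z := zetaG f {fun i => algebraMap K (AlgebraicClosure K) ((0 : Fin N → K) i)}
    {a | a ≠ 0} with hZ
  have h2 : zetaN f 0 = PowerSeries.C (((Lu K) ^ (-(N : ℤ)) : (MK K)ˣ) : MK K) *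
      (Z - PowerSeries.C (PowerSeries.coeff 0 Z)) := by
    unfold zetaN
    congr 1
    ext d
    rw [map_sub, PowerSeries.coeff_C]
    by_cases hd : d = 0
    · subst hd
      rw [if_pos rfl, sub_self, PowerSeries.coeff_mk, if_pos rfl]
    · rw [if_neg hd, sub_zero, PowerSeries.coeff_mk, if_neg hd, hZ,
        zetaG, PowerSeries.coeff_mk]
      have h3 : JetN f (0 : Fin N → K) d =
          JetG f {fun i => algebraMap K (AlgebraicClosure K) ((0 : Fin N → K) i)}
          {a | a ≠ 0} d := by
        ext z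
        simp only [JetN, JetG, Set.mem_ofPred_eq, Set.mem_singleton_iff, funext_iff]
      rw [h3]
  rw [h2]
  exact (ratRing K S).mul_mem (C_mem _ _) ((ratRing K S).sub_mem h1 (C_mem _ _))

end Pool.Agent.TH216.LR
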