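import Mathlib

set_option autoImplicit false

/-! Rational cones: finitely many generators, and simplicial pieces. -/

namespace Pool.Agent.TH216.LR

variable {κ : Type} [Fintype κ]

/-- linear forms -/
def lf (h : κ → ℤ) (u : κ → ℕ) : ℤ := ∑ i, h i * (u i : ℤ)

lemma lf_add (h : κ → ℤ) (u u' : κ → ℕ) : lf h (u + u') = lf h u + lf h u' := by
  unfold lf
  rw [← Finset.sum_add_distrib]
  refine Finset.sum_congr rfl fun i _ => ?_
  simp only [Pi.add_apply]
  push_cast
  ring

/-- Gordan's lemma -/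
theorem exists_gens {ι : Type} [Fintype ι] (h : ι → κ → ℤ) :
    ∃ A : Finset (κ → ℕ), (∀ a ∈ A, a ≠ 0 ∧ ∀ i, 0 ≤ lf (h i) a) ∧
      ∀ u : κ → ℕ, (∀ i, 0 ≤ lf (h i) u) → ∃ s : (κ → ℕ) → ℕ, u = ∑ a ∈ A, s a • a := by
  classical
  let φ : (κ → ℕ) → (κ ⊕ ι → ℕ) := fun u => Sum.elim u fun i => (lf (h i) u).toNat
  let S : Set (κ ⊕ ι → ℕ) := φ '' {u | u ≠ 0 ∧ ∀ i, 0 ≤ lf (h i) u}
  let Mn : Set (κ ⊕ ι → ℕ) := {x | Minimal (· ∈ S) x}
  have hfin : Mn.Finite := by
    have h1 : IsAntichain (· ≤ ·) Mn := setOfPred_minimal_antichain _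
    exact h1.finite_of_partiallyWellOrderedOn (Set.isPWO_of_wellQuasiOrderedLE Mn)
  have hinj : Function.Injective φ := fun u u' huu' => by
    funext i
    exact congrFun huu' (Sum.inl i)
  have hfin2 : (φ ⁻¹' Mn).Finite := hfin.preimage hinj.injOn
  refine ⟨hfin2.toFinset, fun a ha => ?_, ?_⟩
  · rw [Set.Finite.mem_toFinset] at ha
    obtain ⟨b, hb, hb'⟩ := ha.1
    rw [← hinj hb']
    exact hb
  · intro u
    induction hn : ∑ i, u i using Nat.strong_induction_on generalizing u with
    | _ n ih =>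
      intro hu
      by_cases hu0 : u = 0
      · exact ⟨0, by rw [hu0]; simp⟩
      · have hS : φ u ∈ S := ⟨u, ⟨hu0, hu⟩, rfl⟩
        obtain ⟨x, hx1, hx2⟩ := exists_minimal_le_of_wellFoundedLT (· ∈ S) (φ u) hS
        obtain ⟨a, ha, rfl⟩ := hx2.1
        have hau : ∀ i, a i ≤ u i := fun i => hx1 (Sum.inl i)
        have hah : ∀ i, lf (h i) a ≤ lf (h i) u := fun i => by
          have h1 := hx1 (Sum.inr i)
          have h2 : (lf (h i) a).toNat ≤ (lf (h i) u).toNat := h1
          have := ha.2 i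
          have := hu i
          omega
        set u' : κ → ℕ := fun i => u i - a i with hu'
        have huu : u = a + u' := by
          funext i
          simp only [hu', Pi.add_apply]
          have := hau i
          omega
        have hsum : ∑ i, u' i < n := by
          rw [← hn, huu]
          simp only [Pi.add_apply, Finset.sum_add_distrib]
          have : 0 < ∑ i, a i := by
            by_contra hcon
            apply ha.1
            funext i
            exact (Finset.sum_eq_zero_iff.1 (Nat.eq_zero_of_not_pos hcon)) i (Finset.mem_univ i)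
          omega
        obtain ⟨s, hs⟩ := ih _ hsum u' rfl fun i => by
          have h1 := hah i
          have h2 : lf (h i) u = lf (h i) a + lf (h i) u' := by
            conv_lhs => rw [huu]
            exact lf_add _ _ _
          linarith
        refine ⟨fun b => s b + if b = a then 1 else 0, ?_⟩
        have hmem : a ∈ hfin2.toFinset := by
          rw [Set.Finite.mem_toFinset]
          exact hx2
        simp only [add_smul, Finset.sum_add_distrib, ite_smul, one_smul, zero_smul,
          Finset.sum_ite_eq', if_pos hmem]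
        rw [← hs]
        exact huu.trans (add_comm _ _)

/-! ### Simplicial pieces -/

variable {m : Type} [Fintype m]

/-- `u = ∑ s_k a_k` -/
def Rep (a : m → κ → ℕ) (u : κ → ℕ) (s : m → ℝ) : Prop :=
  ∀ i, (u i : ℝ) = ∑ k, s k * (a k i : ℝ)

/-- the relatively open cone -/
def PK (a : m → κ → ℕ) (K : Finset m) : Set (κ → ℕ) :=
  {u | ∃ s : m → ℝ, (∀ k ∈ K, 0 < s k) ∧ (∀ k, k ∉ K → s k = 0) ∧ Rep a u s}

/-- linearly independent -/
def LI (a : m → κ → ℕ) (K : Finset m) : Prop :=
  ∀ d : m → ℝ, (∀ k, k ∉ K → d k = 0) → (∀ i, ∑ k, d k * (a k i : ℝ) = 0) → ∀ k, d k = 0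

/-- no improving direction -/
def Opt (a : m → κ → ℕ) (c : m → ℝ) (K : Finset m) : Prop :=
  ∀ d : m → ℝ, (∀ k, k ∉ K → 0 ≤ d k) → (∀ i, ∑ k, d k * (a k i : ℝ) = 0) →
    0 ≤ ∑ k, c k * d k

/-- a cost which does not vanish on the given vectors -/
lemma exists_cost {ι : Type} [Fintype ι] (d : ι → m → ℝ) :
    ∃ c : m → ℝ, ∀ i, d i ≠ 0 → ∑ k, c k * d i k ≠ 0 := by
  classical
  let e := Fintype.equivFin m
  let P : ι → Polynomial ℝ := fun i => ∑ k, Polynomial.C (d i k) * Polynomial.X ^ (e k : ℕ)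
  have hP : ∀ i, d i ≠ 0 → P i ≠ 0 := by
    intro i hi hP
    apply hi
    funext k
    have h1 := congrArg (fun p => Polynomial.coeff p (e k : ℕ)) hP
    simp only [P, Polynomial.finsetSum_coeff, Polynomial.coeff_C_mul_X_pow,
      Polynomial.coeff_zero] at h1
    rw [Finset.sum_eq_single k] at h1
    · simpa using h1
    · intro k' _ hk'
      rw [if_neg]
      intro h
      exact hk' (e.injective (Fin.ext h.symm))
    · intro h
      exact absurd (Finset.mem_univ k) h
  set Q : Polynomial ℝ := ∏ i, if d i ≠ 0 then P i else 1 with hQ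
  have hQ0 : Q ≠ 0 := by
    rw [hQ, Finset.prod_ne_zero_iff]
    intro i _
    split_ifs with h
    · exact hP i h
    · exact one_ne_zero
  obtain ⟨x, hx⟩ : ∃ x : ℝ, Q.eval x ≠ 0 := by
    by_contra hcon
    push Not at hcon
    exact hQ0 (Polynomial.funext fun x => by rw [hcon x, Polynomial.eval_zero])
  refine ⟨fun k => x ^ (e k : ℕ), fun i hi h => ?_⟩
  apply hx
  rw [hQ, Polynomial.eval_prod]
  refine Finset.prod_eq_zero (Finset.mem_univ i) ?_
  rw [if_pos hi]
  simp only [P, Polynomial.eval_finsetSum, Polynomial.eval_mul, Polynomial.eval_C,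
    Polynomial.eval_pow, Polynomial.eval_X]
  rw [← h]
  exact Finset.sum_congr rfl fun k _ => mul_comm _ _

/-- a generic cost -/
lemma exists_cost' (a : m → κ → ℕ) : ∃ c : m → ℝ, ∀ K, Opt a c K → LI a K := by
  classical
  have h : ∀ K : Finset m, ∃ d : m → ℝ, ¬ LI a K → d ≠ 0 ∧ (∀ k, k ∉ K → d k = 0) ∧
      ∀ i, ∑ k, d k * (a k i : ℝ) = 0 := by
    intro K
    by_cases hK : LI a K
    · exact ⟨0, fun h => absurd hK h⟩
    · unfold LI at hK
      push Not at hK
      obtain ⟨d, h1, h2, k, hk⟩ := hK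
      exact ⟨d, fun _ => ⟨fun h => hk (by rw [h]; rfl), h1, h2⟩⟩
  choose d hd using h
  obtain ⟨c, hc⟩ := exists_cost d
  refine ⟨c, fun K hK => ?_⟩
  by_contra hLI
  obtain ⟨h1, h2, h3⟩ := hd K hLI
  have h4 := hK (d K) (fun k hk => (h2 k hk).ge) h3
  have h5 := hK (-(d K)) (fun k hk => by simp [h2 k hk]) (fun i => by
    have := h3 i
    simp only [Pi.neg_apply, neg_mul, Finset.sum_neg_distrib, this, neg_zero])
  simp only [Pi.neg_apply, mul_neg, Finset.sum_neg_distrib] at h5
  exact hc K h1 (le_antisymm (by linarith) h4)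

/-- a minimal representation -/
lemma exists_min (a : m → κ → ℕ) (ha : ∀ k, a k ≠ 0) (c : m → ℝ) (u : κ → ℕ)
    (hu : ∃ s : m → ℝ, (∀ k, 0 ≤ s k) ∧ Rep a u s) :
    ∃ s : m → ℝ, (∀ k, 0 ≤ s k) ∧ Rep a u s ∧ ∀ s' : m → ℝ, (∀ k, 0 ≤ s' k) → Rep a u s' →
      ∑ k, c k * s k ≤ ∑ k, c k * s' k := by
  classical
  set C : Set (m → ℝ) := {s | (∀ k, 0 ≤ s k) ∧ Rep a u s} with hC
  have hne : C.Nonempty := hu
  have hclosed : IsClosed C := by
    rw [hC]
    have h1 : {s : m → ℝ | (∀ k, 0 ≤ s k) ∧ Rep a u s} =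
        (⋂ k, {s : m → ℝ | 0 ≤ s k}) ∩ ⋂ i, {s : m → ℝ | (u i : ℝ) = ∑ k, s k * (a k i : ℝ)} := by
      ext s
      simp only [Rep, Set.mem_ofPred_eq, Set.mem_inter_iff, Set.mem_iInter]
    rw [h1]
    refine IsClosed.inter (isClosed_iInter fun k => ?_) (isClosed_iInter fun i => ?_)
    · exact isClosed_le continuous_const (continuous_apply k)
    · exact isClosed_eq continuous_const (continuous_finsetSum _ fun k _ =>
        (continuous_apply k).mul continuous_const)
  have hbdd : Bornology.IsBounded C := by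
    refine (Metric.isBounded_Icc (0 : m → ℝ) (fun _ => ∑ i, (u i : ℝ))).subset ?_
    rintro s ⟨h1, h2⟩
    refine ⟨fun k => h1 k, fun k => ?_⟩
    obtain ⟨i, hi⟩ : ∃ i, a k i ≠ 0 := by
      by_contra hcon
      push Not at hcon
      exact ha k (funext hcon)
    have h3 : s k * (a k i : ℝ) ≤ (u i : ℝ) := by
      rw [h2 i]
      exact Finset.single_le_sum (f := fun k => s k * (a k i : ℝ))
        (fun k _ => mul_nonneg (h1 k) (Nat.cast_nonneg _)) (Finset.mem_univ k)
    have h4 : (1 : ℝ) ≤ (a k i : ℝ) := by exact_mod_cast Nat.one_le_iff_ne_zero.2 hi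
    have h5 : s k ≤ s k * (a k i : ℝ) := le_mul_of_one_le_right (h1 k) h4
    have h6 : (u i : ℝ) ≤ ∑ i, (u i : ℝ) := Finset.single_le_sum (f := fun i => (u i : ℝ))
      (fun i _ => Nat.cast_nonneg _) (Finset.mem_univ i)
    linarith
  have hcomp : IsCompact C := Metric.isCompact_of_isClosed_isBounded hclosed hbdd
  obtain ⟨s, hs, hmin⟩ := hcomp.exists_isMinOn hne
    (f := fun s : m → ℝ => ∑ k, c k * s k) (continuous_finsetSum _ fun k _ =>
      continuous_const.mul (continuous_apply k)).continuousOn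
  exact ⟨s, hs.1, hs.2, fun s' h1 h2 => hmin ⟨h1, h2⟩⟩

/-- the support of a minimal representation -/
lemma opt_of_min (a : m → κ → ℕ) (c : m → ℝ) (u : κ → ℕ) (s : m → ℝ) (hs : ∀ k, 0 ≤ s k)
    (hr : Rep a u s) (hmin : ∀ s' : m → ℝ, (∀ k, 0 ≤ s' k) → Rep a u s' →
      ∑ k, c k * s k ≤ ∑ k, c k * s' k) : Opt a c (Finset.univ.filter fun k => 0 < s k) := by
  classical
  intro d hd hd0
  -- a small multiple
  obtain ⟨ε, hε, hε2⟩ : ∃ ε : ℝ, 0 < ε ∧ ∀ k, 0 ≤ s k + ε * d k := by
    have h1 : ∀ k, ∃ ε : ℝ, 0 < ε ∧ ∀ ε', 0 < ε' → ε' ≤ ε → 0 ≤ s k + ε' * d k := by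
      intro k
      by_cases hk : 0 < s k
      · refine ⟨s k / (|d k| + 1), by positivity, fun ε' h1 h2 => ?_⟩
        have h3 : ε' * |d k| ≤ s k := by
          have h4 : ε' * (|d k| + 1) ≤ s k := by
            rwa [le_div_iff₀ (by positivity)] at h2
          nlinarith [abs_nonneg (d k)]
        have h5 := neg_abs_le (d k)
        nlinarith
      · refine ⟨1, one_pos, fun ε' h1 _ => ?_⟩
        have h2 : 0 ≤ d k := hd k (by simpa using hk)
        have := hs k
        positivity
    choose ε hε using h1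
    obtain ⟨e, he, he2⟩ : ∃ e : ℝ, 0 < e ∧ ∀ k, e ≤ ε k := by
      rcases isEmpty_or_nonempty m with hm | hm
      · exact ⟨1, one_pos, fun k => (hm.false k).elim⟩
      · refine ⟨Finset.univ.inf' Finset.univ_nonempty ε, ?_, fun k =>
          Finset.inf'_le _ (Finset.mem_univ k)⟩
        rw [Finset.lt_inf'_iff]
        exact fun k _ => (hε k).1
    exact ⟨e, he, fun k => (hε k).2 e he (he2 k)⟩
  have h1 := hmin (fun k => s k + ε * d k) hε2 (fun i => by
    rw [hr i]
    have h2 : ∑ k, (s k + ε * d k) * (a k i : ℝ) = ∑ k, s k * (a k i : ℝ) +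
        ε * ∑ k, d k * (a k i : ℝ) := by
      rw [Finset.mul_sum, ← Finset.sum_add_distrib]
      exact Finset.sum_congr rfl fun k _ => by ring
    rw [h2, hd0 i, mul_zero, add_zero])
  have h3 : ∑ k, c k * (s k + ε * d k) = ∑ k, c k * s k + ε * ∑ k, c k * d k := by
    rw [Finset.mul_sum, ← Finset.sum_add_distrib]
    exact Finset.sum_congr rfl fun k _ => by ring
  rw [h3] at h1
  have h4 : 0 ≤ ε * ∑ k, c k * d k := by linarith
  exact nonneg_of_mul_nonneg_right h4 hε

/-- the pieces are disjoint and cover the cone -/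
theorem pieces (a : m → κ → ℕ) (ha : ∀ k, a k ≠ 0) (c : m → ℝ)
    (hc : ∀ K, Opt a c K → LI a K) :
    (∀ u : κ → ℕ, (∃ s : m → ℝ, (∀ k, 0 ≤ s k) ∧ Rep a u s) → ∃ K, Opt a c K ∧ u ∈ PK a K) ∧
    ∀ (K K' : Finset m) (u : κ → ℕ), Opt a c K → Opt a c K' → u ∈ PK a K → u ∈ PK a K' →
      K = K' := by
  classical
  refine ⟨fun u hu => ?_, ?_⟩
  · obtain ⟨s, h1, h2, h3⟩ := exists_min a ha c u hu
    refine ⟨_, opt_of_min a c u s h1 h2 h3, s, fun k hk => (Finset.mem_filter.1 hk).2,
      fun k hk => ?_, h2⟩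
    have h4 : ¬ 0 < s k := by simpa using hk
    exact le_antisymm (not_lt.1 h4) (h1 k)
  · rintro K K' u hK hK' ⟨s, hs1, hs2, hs3⟩ ⟨s', hs1', hs2', hs3'⟩
    have hs0 : ∀ k, 0 ≤ s k := fun k => by
      by_cases hk : k ∈ K
      · exact (hs1 k hk).le
      · exact (hs2 k hk).ge
    have hs0' : ∀ k, 0 ≤ s' k := fun k => by
      by_cases hk : k ∈ K'
      · exact (hs1' k hk).le
      · exact (hs2' k hk).ge
    -- both are minimal
    have hmin : ∀ (K : Finset m) (s : m → ℝ), Opt a c K → (∀ k, k ∉ K → s k = 0) → Rep a u s →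
        ∀ s'' : m → ℝ, (∀ k, 0 ≤ s'' k) → Rep a u s'' → ∑ k, c k * s k ≤ ∑ k, c k * s'' k := by
      intro K s hK h0 hr s'' h1 h2
      have h3 := hK (fun k => s'' k - s k) (fun k hk => by rw [h0 k hk, sub_zero]; exact h1 k)
        (fun i => by
          have h4 : ∑ k, (s'' k - s k) * (a k i : ℝ) = ∑ k, s'' k * (a k i : ℝ) -
              ∑ k, s k * (a k i : ℝ) := by
            rw [← Finset.sum_sub_distrib]
            exact Finset.sum_congr rfl fun k _ => by ring
          rw [h4, ← h2 i, ← hr i, sub_self])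
      have h5 : ∑ k, c k * (s'' k - s k) = ∑ k, c k * s'' k - ∑ k, c k * s k := by
        rw [← Finset.sum_sub_distrib]
        exact Finset.sum_congr rfl fun k _ => by ring
      rw [h5] at h3
      linarith
    have m1 := hmin K s hK hs2 hs3
    have m2 := hmin K' s' hK' hs2' hs3'
    have e1 := le_antisymm (m1 s' hs0' hs3') (m2 s hs0 hs3)
    -- the midpoint
    set w : m → ℝ := fun k => (s k + s' k) / 2 with hw
    have hw0 : ∀ k, 0 ≤ w k := fun k => by
      have := hs0 k
      have := hs0' k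
      simp only [hw]
      linarith
    have hwr : Rep a u w := fun i => by
      have h1 : ∑ k, w k * (a k i : ℝ) = (∑ k, s k * (a k i : ℝ) + ∑ k, s' k * (a k i : ℝ)) / 2 := by
        rw [← Finset.sum_add_distrib, Finset.sum_div]
        exact Finset.sum_congr rfl fun k _ => by simp only [hw]; ring
      rw [h1, ← hs3 i, ← hs3' i]
      ring
    have hwc : ∑ k, c k * w k = ∑ k, c k * s k := by
      have h1 : ∑ k, c k * w k = (∑ k, c k * s k + ∑ k, c k * s' k) / 2 := by
        rw [← Finset.sum_add_distrib, Finset.sum_div]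
        exact Finset.sum_congr rfl fun k _ => by simp only [hw]; ring
      rw [h1, ← e1]
      ring
    have hopt := opt_of_min a c u w hw0 hwr fun s'' h1 h2 => by
      rw [hwc]
      exact m1 s'' h1 h2
    have hLI := hc _ hopt
    have hz := hLI (fun k => s k - s' k) (fun k hk => by
        have h1 : ¬ 0 < w k := by simpa using hk
        have h2 := hs0 k
        have h3 := hs0' k
        simp only [hw] at h1
        have h4 : s k = 0 := by linarith
        have h5 : s' k = 0 := by linarith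
        rw [h4, h5, sub_self]) (fun i => by
      have h4 : ∑ k, (s k - s' k) * (a k i : ℝ) = ∑ k, s k * (a k i : ℝ) -
          ∑ k, s' k * (a k i : ℝ) := by
        rw [← Finset.sum_sub_distrib]
        exact Finset.sum_congr rfl fun k _ => by ring
      rw [h4, ← hs3 i, ← hs3' i, sub_self])
    ext k
    have h1 : s k = s' k := sub_eq_zero.1 (hz k)
    constructor
    · intro hk
      by_contra hk'
      have := hs1 k hk
      rw [h1, hs2' k hk'] at this
      exact lt_irrefl _ this
    · intro hk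
      by_contra hk'
      have := hs1' k hk
      rw [← h1, hs2 k hk'] at this
      exact lt_irrefl _ this

end Pool.Agent.TH216.LR
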