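import Pool.Agent.TH216.LR.Lr1
import Pool.Agent.TH216.MF.MotC

set_option autoImplicit false

/-! Sums over the lattice points of cones: the recurrence in the height. -/

namespace Pool.Agent.TH216.LR

open Filter
open Pool.Agent.TH216.MF (iv iv_pos iv_neg iv_congr)

variable {κ : Type} [Fintype κ] {m : Type} [Fintype m]

/-- linear forms with natural coefficients -/
def nf (h : κ → ℕ) (u : κ → ℕ) : ℕ := ∑ i, h i * u i

lemma nf_add (h : κ → ℕ) (u u' : κ → ℕ) : nf h (u + u') = nf h u + nf h u' := by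
  unfold nf
  rw [← Finset.sum_add_distrib]
  exact Finset.sum_congr rfl fun i _ => by simp only [Pi.add_apply]; ring

/-- the sum over the points of `S` at the height `lam` -/
noncomputable def Fs (y : ℂ) (ρ ν l : κ → ℕ) (g : ℤ → ℂ) (S : Set (κ → ℕ)) (lam t : ℤ) : ℂ :=
  ∑' u : κ → ℕ, iv (u ∈ S ∧ (nf l u : ℤ) = lam) (y ^ nf ρ u * g (t - nf ν u))

/-- summability -/
def Sb (y : ℂ) (ρ ν l : κ → ℕ) (g : ℤ → ℂ) : Prop :=
  ∀ lam t : ℤ, Summable fun u : κ → ℕ => iv ((nf l u : ℤ) = lam) (y ^ nf ρ u * g (t - nf ν u))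

lemma summable_iv {α : Type} (f : α → ℂ) (hf : Summable f) (P : α → Prop) :
    Summable fun u => iv (P u) (f u) := by
  classical
  have h1 := hf.indicator {u | P u}
  refine h1.congr fun u => ?_
  by_cases h : P u
  · rw [iv_pos h, Set.indicator_of_mem (show u ∈ {u | P u} from h)]
  · rw [iv_neg h, Set.indicator_of_notMem (show u ∉ {u | P u} from h)]

lemma summable_Fs {y : ℂ} {ρ ν l : κ → ℕ} {g : ℤ → ℂ} (hb : Sb y ρ ν l g) (S : Set (κ → ℕ))
    (lam t : ℤ) :
    Summable fun u : κ → ℕ => iv (u ∈ S ∧ (nf l u : ℤ) = lam) (y ^ nf ρ u * g (t - nf ν u)) := by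
  have h1 := summable_iv _ (hb lam t) (fun u => u ∈ S)
  refine h1.congr fun u => ?_
  by_cases h : u ∈ S
  · rw [iv_pos h]
    exact iv_congr (by tauto) _
  · rw [iv_neg h, iv_neg fun h' => h h'.1]

/-- disjoint unions -/
lemma Fs_union {y : ℂ} {ρ ν l : κ → ℕ} {g : ℤ → ℂ} (hb : Sb y ρ ν l g) (S S1 S2 : Set (κ → ℕ))
    (h : ∀ u, u ∈ S ↔ u ∈ S1 ∨ u ∈ S2) (hd : ∀ u, u ∈ S1 → u ∉ S2) (lam t : ℤ) :
    Fs y ρ ν l g S lam t = Fs y ρ ν l g S1 lam t + Fs y ρ ν l g S2 lam t := by
  unfold Fs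
  rw [← (summable_Fs hb S1 lam t).tsum_add (summable_Fs hb S2 lam t)]
  refine tsum_congr fun u => ?_
  by_cases hl : (nf l u : ℤ) = lam
  · by_cases h1 : u ∈ S1
    · rw [iv_pos ⟨(h u).2 (Or.inl h1), hl⟩, iv_pos ⟨h1, hl⟩, iv_neg fun h' => hd u h1 h'.1,
        add_zero]
    · by_cases h2 : u ∈ S2
      · rw [iv_pos ⟨(h u).2 (Or.inr h2), hl⟩, iv_neg (P := u ∈ S1 ∧ (nf l u : ℤ) = lam)
          fun h' => h1 h'.1, iv_pos ⟨h2, hl⟩, zero_add]
      · rw [iv_neg fun h' => ((h u).1 h'.1).elim h1 h2, iv_neg fun h' => h1 h'.1,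
          iv_neg fun h' => h2 h'.1, zero_add]
  · rw [iv_neg fun h' => hl h'.2, iv_neg fun h' => hl h'.2, iv_neg fun h' => hl h'.2, zero_add]

/-- translation -/
lemma Fs_trans {y : ℂ} {ρ ν l : κ → ℕ} {g : ℤ → ℂ} (a : κ → ℕ) (S S1 : Set (κ → ℕ))
    (h : ∀ u, u ∈ S ↔ ∃ u' ∈ S1, u = a + u') (lam t : ℤ) :
    Fs y ρ ν l g S lam t = y ^ nf ρ a * Fs y ρ ν l g S1 (lam - nf l a) (t - nf ν a) := by
  unfold Fs
  have hinj : Function.Injective fun u : κ → ℕ => a + u := add_right_injective a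
  rw [← hinj.tsum_eq, ← tsum_mul_left]
  · refine tsum_congr fun u => ?_
    by_cases hu : u ∈ S1 ∧ (nf l u : ℤ) = lam - nf l a
    · rw [iv_pos hu, iv_pos ⟨(h _).2 ⟨u, hu.1, rfl⟩, by rw [nf_add]; push_cast; linarith [hu.2]⟩,
        nf_add, nf_add, pow_add]
      push_cast
      rw [← sub_sub]
      ring
    · rw [iv_neg hu, mul_zero, iv_neg]
      rintro ⟨h1, h2⟩
      obtain ⟨u', hu', he⟩ := (h _).1 h1
      have : u = u' := hinj he
      subst this
      apply hu
      refine ⟨hu', ?_⟩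
      rw [nf_add] at h2
      push_cast at h2
      linarith
  · intro u hu
    rw [Function.mem_support] at hu
    by_contra hcon
    apply hu
    rw [iv_neg]
    rintro ⟨h1, -⟩
    obtain ⟨u', -, he⟩ := (h u).1 h1
    exact hcon ⟨u', he.symm⟩

/-- pieces of the relatively open cone -/
def PB (a : m → κ → ℕ) (K K' : Finset m) : Set (κ → ℕ) :=
  {u | ∃ s : m → ℝ, (∀ k ∈ K, 0 < s k) ∧ (∀ k, k ∉ K → s k = 0) ∧ (∀ k ∈ K', s k ≤ 1) ∧
    Rep a u s}

lemma rep_unique {a : m → κ → ℕ} {K : Finset m} (hK : LI a K) {u : κ → ℕ} {s s' : m → ℝ}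
    (h : ∀ k, k ∉ K → s k = 0) (h' : ∀ k, k ∉ K → s' k = 0) (hr : Rep a u s) (hr' : Rep a u s') :
    ∀ k, s k = s' k := by
  intro k
  have := hK (fun k => s k - s' k) (fun k hk => by rw [h k hk, h' k hk, sub_zero]) (fun i => by
    have h4 : ∑ k, (s k - s' k) * (a k i : ℝ) = ∑ k, s k * (a k i : ℝ) -
        ∑ k, s' k * (a k i : ℝ) := by
      rw [← Finset.sum_sub_distrib]
      exact Finset.sum_congr rfl fun k _ => by ring
    rw [h4, ← hr i, ← hr' i, sub_self]) k
  exact sub_eq_zero.1 this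

lemma PB_step {a : m → κ → ℕ} [DecidableEq m] {K K' : Finset m} (hK : LI a K) {k : m} (hk : k ∈ K)
    (u : κ → ℕ) : (u ∈ PB a K K' ∧ u ∉ PB a K (insert k K')) ↔
      ∃ u' ∈ PB a K K', (k ∈ K' → False) ∧ u = a k + u' := by
  constructor
  · rintro ⟨⟨s, h1, h2, h3, h4⟩, h5⟩
    have hsk : 1 < s k := by
      by_contra hcon
      apply h5
      refine ⟨s, h1, h2, fun k' hk' => ?_, h4⟩
      rcases Finset.mem_insert.1 hk' with rfl | h
      · exact not_lt.1 hcon
      · exact h3 k' h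
    have hkK : k ∉ K' := fun h => absurd (h3 k h) (not_le.2 hsk)
    have hai : ∀ i, a k i ≤ u i := by
      intro i
      have h6 : (a k i : ℝ) ≤ u i := by
        rw [h4 i]
        have h7 : (1 : ℝ) * a k i ≤ s k * a k i :=
          mul_le_mul_of_nonneg_right hsk.le (Nat.cast_nonneg _)
        have h8 : s k * (a k i : ℝ) ≤ ∑ k, s k * (a k i : ℝ) :=
          Finset.single_le_sum (f := fun k => s k * (a k i : ℝ)) (fun k' _ => by
            by_cases hk' : k' ∈ K
            · exact mul_nonneg (h1 k' hk').le (Nat.cast_nonneg _)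
            · rw [h2 k' hk', zero_mul]) (Finset.mem_univ k)
        linarith
      exact_mod_cast h6
    refine ⟨fun i => u i - a k i, ⟨fun k' => if k' = k then s k - 1 else s k', ?_, ?_, ?_, ?_⟩,
      hkK, ?_⟩
    · intro k' hk'
      dsimp only
      by_cases h : k' = k
      · rw [if_pos h]; linarith
      · rw [if_neg h]; exact h1 k' hk'
    · intro k' hk'
      dsimp only
      rw [if_neg (fun h : k' = k => hk' (h ▸ hk))]
      exact h2 k' hk'
    · intro k' hk'
      dsimp only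
      rw [if_neg (fun h : k' = k => hkK (h ▸ hk'))]
      exact h3 k' hk'
    · intro i
      rw [Nat.cast_sub (hai i), h4 i]
      have h6 : ∀ k', (if k' = k then s k - 1 else s k') * (a k' i : ℝ) =
          s k' * (a k' i : ℝ) - if k' = k then (a k i : ℝ) else 0 := by
        intro k'
        by_cases h : k' = k
        · subst h
          rw [if_pos rfl, if_pos rfl]
          ring
        · rw [if_neg h, if_neg h, sub_zero]
      rw [Finset.sum_congr rfl fun k' _ => h6 k', Finset.sum_sub_distrib,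
        Finset.sum_ite_eq' Finset.univ k, if_pos (Finset.mem_univ k)]
    · funext i
      simp only [Pi.add_apply]
      have := hai i
      omega
  · rintro ⟨u', ⟨s, h1, h2, h3, h4⟩, hkK, rfl⟩
    have hs : ∀ i, ((a k + u') i : ℕ) = ∑ k', (if k' = k then s k + 1 else s k') * (a k' i : ℝ) := by
      intro i
      have h6 : ∀ k', (if k' = k then s k + 1 else s k') * (a k' i : ℝ) =
          s k' * (a k' i : ℝ) + if k' = k then (a k i : ℝ) else 0 := by
        intro k'
        by_cases h : k' = k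
        · subst h
          rw [if_pos rfl, if_pos rfl]
          ring
        · rw [if_neg h, if_neg h, add_zero]
      rw [Finset.sum_congr rfl fun k' _ => h6 k', Finset.sum_add_distrib,
        Finset.sum_ite_eq' Finset.univ k, if_pos (Finset.mem_univ k), ← h4 i, Pi.add_apply]
      push_cast
      ring
    constructor
    · refine ⟨fun k' => if k' = k then s k + 1 else s k', ?_, ?_, ?_, hs⟩
      · intro k' hk'
        dsimp only
        by_cases h : k' = k
        · rw [if_pos h]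
          have := h1 k hk
          linarith
        · rw [if_neg h]; exact h1 k' hk'
      · intro k' hk'
        dsimp only
        rw [if_neg (fun h : k' = k => hk' (h ▸ hk))]
        exact h2 k' hk'
      · intro k' hk'
        dsimp only
        rw [if_neg (fun h : k' = k => hkK (h ▸ hk'))]
        exact h3 k' hk'
    · rintro ⟨s', h1', h2', h3', h4'⟩
      have h5 := rep_unique hK h2' (s' := fun k' => if k' = k then s k + 1 else s k')
        (fun k' hk' => by
          rw [if_neg (fun h : k' = k => hk' (h ▸ hk))]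
          exact h2 k' hk') h4' hs k
      rw [if_pos rfl] at h5
      have h6 := h3' k (Finset.mem_insert_self _ _)
      have h7 := h1 k hk
      linarith

/-! ### Operators -/

/-- the operator of a generator -/
def op (p : ℂ × ℕ × ℕ) (F : ℤ → ℤ → ℂ) : ℤ → ℤ → ℂ :=
  fun lam t => F lam t - p.1 * F (lam - p.2.2) (t - p.2.1)

/-- the product of the operators -/
def opL (L : List (ℂ × ℕ × ℕ)) (F : ℤ → ℤ → ℂ) : ℤ → ℤ → ℂ := L.foldr op F

/-- the total height -/
def hL (L : List (ℂ × ℕ × ℕ)) : ℕ := (L.map fun p => p.2.2).sum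

lemma hL_cons (p : ℂ × ℕ × ℕ) (L : List (ℂ × ℕ × ℕ)) : hL (p :: L) = p.2.2 + hL L := by
  unfold hL
  rw [List.map_cons, List.sum_cons]

lemma hL_append (L L' : List (ℂ × ℕ × ℕ)) : hL (L ++ L') = hL L + hL L' := by
  unfold hL
  rw [List.map_append, List.sum_append]

lemma op_comm (p p' : ℂ × ℕ × ℕ) (F : ℤ → ℤ → ℂ) : op p (op p' F) = op p' (op p F) := by
  funext lam t
  unfold op
  rw [sub_right_comm lam, sub_right_comm t]
  ring

lemma op_opL (p : ℂ × ℕ × ℕ) (L : List (ℂ × ℕ × ℕ)) (F : ℤ → ℤ → ℂ) :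
    op p (opL L F) = opL L (op p F) := by
  induction L with
  | nil => rfl
  | cons p' L ih =>
    show op p (op p' (opL L F)) = op p' (opL L (op p F))
    rw [op_comm, ih]

lemma opL_append (L L' : List (ℂ × ℕ × ℕ)) (F : ℤ → ℤ → ℂ) :
    opL (L ++ L') F = opL L (opL L' F) := by
  unfold opL
  rw [List.foldr_append]

lemma opL_comm (L L' : List (ℂ × ℕ × ℕ)) (F : ℤ → ℤ → ℂ) :
    opL L (opL L' F) = opL L' (opL L F) := by
  induction L with
  | nil => rfl
  | cons p L ih =>
    show op p (opL L (opL L' F)) = opL L' (op p (opL L F))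
    rw [ih, op_opL]

lemma opL_add (L : List (ℂ × ℕ × ℕ)) (F G : ℤ → ℤ → ℂ) :
    opL L (F + G) = opL L F + opL L G := by
  induction L with
  | nil => rfl
  | cons p L ih =>
    show op p (opL L (F + G)) = op p (opL L F) + op p (opL L G)
    rw [ih]
    funext lam t
    simp only [op, Pi.add_apply]
    ring

lemma opL_supp (L : List (ℂ × ℕ × ℕ)) (G : ℤ → ℤ → ℂ) (B : ℤ)
    (h : ∀ lam, B < lam → ∀ t, G lam t = 0) :
    ∀ lam, B + hL L < lam → ∀ t, opL L G lam t = 0 := by
  induction L with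
  | nil =>
    intro lam hlam t
    exact h lam (by simpa [hL] using hlam) t
  | cons p L ih =>
    intro lam hlam t
    rw [hL_cons] at hlam
    push_cast at hlam
    show opL L G lam t - p.1 * opL L G (lam - p.2.2) (t - p.2.1) = 0
    rw [ih lam (by have := Int.natCast_nonneg p.2.2; linarith) t, ih (lam - p.2.2) (by linarith),
      mul_zero, sub_zero]

/-- the operators kill the function above the total height -/
def Kil (L : List (ℂ × ℕ × ℕ)) (F : ℤ → ℤ → ℂ) : Prop :=
  (∀ p ∈ L, p.1 ≠ 0 ∧ 0 < p.2.2) ∧ ∀ lam : ℤ, (hL L : ℤ) < lam → ∀ t, opL L F lam t = 0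

lemma Kil.add {L L' : List (ℂ × ℕ × ℕ)} {F F' : ℤ → ℤ → ℂ} (h : Kil L F) (h' : Kil L' F') :
    Kil (L ++ L') (F + F') := by
  refine ⟨fun p hp => (List.mem_append.1 hp).elim (h.1 p) (h'.1 p), fun lam hlam t => ?_⟩
  rw [hL_append] at hlam
  push_cast at hlam
  rw [opL_add, opL_append, opL_append, opL_comm L L' F, Pi.add_apply, Pi.add_apply,
    opL_supp L' _ (hL L) h.2 lam hlam t, opL_supp L _ (hL L') h'.2 lam (by linarith) t, add_zero]

lemma Kil.zero : Kil [] (0 : ℤ → ℤ → ℂ) := ⟨by simp, fun _ _ _ => rfl⟩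

lemma exists_kil_sum {ι : Type} (s : Finset ι) (F : ι → ℤ → ℤ → ℂ)
    (h : ∀ i ∈ s, ∃ L, Kil L (F i)) : ∃ L, Kil L (∑ i ∈ s, F i) := by
  classical
  induction s using Finset.induction_on with
  | empty => exact ⟨[], by rw [Finset.sum_empty]; exact Kil.zero⟩
  | insert a s ha ih =>
    rw [Finset.sum_insert ha]
    obtain ⟨L, hL⟩ := h a (Finset.mem_insert_self _ _)
    obtain ⟨L', hL'⟩ := ih fun i hi => h i (Finset.mem_insert_of_mem hi)
    exact ⟨_, hL.add hL'⟩

/-- **Simplicial pieces.** -/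
theorem kil_piece {y : ℂ} (hy : y ≠ 0) {ρ ν l : κ → ℕ} {g : ℤ → ℂ} (hb : Sb y ρ ν l g)
    (a : m → κ → ℕ) (K : Finset m) (hK : LI a K) :
    ∃ L, Kil L (Fs y ρ ν l g (PK a K)) := by
  classical
  set Kp : Finset m := K.filter fun k => 0 < nf l (a k) with hKp
  have key : ∀ K' : Finset m, K' ⊆ Kp → ∃ L : List (ℂ × ℕ × ℕ), (∀ p ∈ L, p.1 ≠ 0 ∧ 0 < p.2.2) ∧
      hL L = ∑ k ∈ K', nf l (a k) ∧
      opL L (Fs y ρ ν l g (PK a K)) = Fs y ρ ν l g (PB a K K') := by
    intro K'
    induction K' using Finset.induction_on with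
    | empty =>
      intro _
      refine ⟨[], by simp, by simp [hL], ?_⟩
      show Fs y ρ ν l g (PK a K) = _
      congr 1
      ext u
      constructor
      · rintro ⟨s, h1, h2, h3⟩
        exact ⟨s, h1, h2, by simp, h3⟩
      · rintro ⟨s, h1, h2, -, h3⟩
        exact ⟨s, h1, h2, h3⟩
    | insert k K' hkK' ih =>
      intro hsub
      have hkKp : k ∈ Kp := hsub (Finset.mem_insert_self _ _)
      rw [hKp, Finset.mem_filter] at hkKp
      obtain ⟨L, h1, h2, h3⟩ := ih fun k' hk' => hsub (Finset.mem_insert_of_mem hk')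
      refine ⟨(y ^ nf ρ (a k), nf ν (a k), nf l (a k)) :: L, ?_, ?_, ?_⟩
      · intro p hp
        rcases List.mem_cons.1 hp with rfl | hp
        · exact ⟨pow_ne_zero _ hy, hkKp.2⟩
        · exact h1 p hp
      · rw [hL_cons, h2, Finset.sum_insert hkK']
      · show op _ (opL L _) = _
        rw [h3]
        funext lam t
        unfold op
        have e1 := Fs_union hb (PB a K K') (PB a K (insert k K'))
          {u | u ∈ PB a K K' ∧ u ∉ PB a K (insert k K')} (fun u => by
            constructor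
            · intro hu
              by_cases h : u ∈ PB a K (insert k K')
              · exact Or.inl h
              · exact Or.inr ⟨hu, h⟩
            · rintro (⟨s, h4, h5, h6, h7⟩ | h)
              · exact ⟨s, h4, h5, fun k' hk' => h6 k' (Finset.mem_insert_of_mem hk'), h7⟩
              · exact h.1) (fun u h h' => h'.2 h) lam t
        have e2 := Fs_trans (y := y) (ρ := ρ) (ν := ν) (l := l) (g := g) (a k)
          {u | u ∈ PB a K K' ∧ u ∉ PB a K (insert k K')} (PB a K K') (fun u => by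
            refine (PB_step hK hkKp.1 u).trans ?_
            constructor
            · rintro ⟨u', h4, -, h5⟩
              exact ⟨u', h4, h5⟩
            · rintro ⟨u', h4, h5⟩
              exact ⟨u', h4, fun h => hkK' h, h5⟩) lam t
        rw [e1, e2]
        ring
  obtain ⟨L, h1, h2, h3⟩ := key Kp (Finset.Subset.refl _)
  refine ⟨L, h1, fun lam hlam t => ?_⟩
  rw [h3]
  unfold Fs
  rw [← tsum_zero (α := ℂ) (β := κ → ℕ)]
  refine tsum_congr fun u => iv_neg ?_ _
  rintro ⟨⟨s, h4, h5, h6, h7⟩, h8⟩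
  have h9 : (nf l u : ℝ) = ∑ k, s k * (nf l (a k) : ℝ) := by
    unfold nf
    push_cast
    simp only [h7 _, Finset.mul_sum]
    rw [Finset.sum_comm]
    exact Finset.sum_congr rfl fun k _ => Finset.sum_congr rfl fun i _ => by ring
  have h10 : ∑ k, s k * (nf l (a k) : ℝ) ≤ ∑ k ∈ Kp, (nf l (a k) : ℝ) := by
    rw [← Finset.sum_subset (Finset.subset_univ Kp)]
    · refine Finset.sum_le_sum fun k hk => ?_
      exact mul_le_of_le_one_left (Nat.cast_nonneg _) (h6 k hk)
    · intro k _ hk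
      by_cases hkK : k ∈ K
      · have : nf l (a k) = 0 := by
          by_contra hne
          exact hk (by rw [hKp, Finset.mem_filter]; exact ⟨hkK, Nat.pos_of_ne_zero hne⟩)
        rw [this]
        simp
      · rw [h5 k hkK, zero_mul]
  have h11 : (nf l u : ℝ) ≤ (hL L : ℝ) := by
    rw [h9, h2]
    push_cast
    exact h10
  have h12 : (nf l u : ℤ) ≤ (hL L : ℤ) := by exact_mod_cast h11
  linarith

/-- **The recurrence for cones.** -/
theorem kil_cone {ι : Type} [Fintype ι] (h : ι → κ → ℤ) (Sp : ι → Prop) {y : ℂ} (hy : y ≠ 0)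
    {ρ ν l : κ → ℕ} {g : ℤ → ℂ} (hb : Sb y ρ ν l g) :
    ∃ L, Kil L (Fs y ρ ν l g {u | (∀ i, 0 ≤ lf (h i) u) ∧ ∀ i, Sp i → 0 < lf (h i) u}) := by
  classical
  obtain ⟨A, hA, hgen⟩ := exists_gens h
  let a : {b // b ∈ A} → κ → ℕ := fun b => b.1
  have ha : ∀ k, a k ≠ 0 := fun k => (hA k.1 k.2).1
  have hah : ∀ k i, 0 ≤ lf (h i) (a k) := fun k i => (hA k.1 k.2).2 i
  obtain ⟨c, hc⟩ := exists_cost' a
  obtain ⟨hcov, hdis⟩ := pieces a ha c hc
  set U : Set (κ → ℕ) := {u | (∀ i, 0 ≤ lf (h i) u) ∧ ∀ i, Sp i → 0 < lf (h i) u} with hU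
  have hlf : ∀ (s : {b // b ∈ A} → ℝ) (u : κ → ℕ), Rep a u s → ∀ i,
      (lf (h i) u : ℝ) = ∑ k, s k * (lf (h i) (a k) : ℝ) := by
    intro s u hr i
    unfold lf
    push_cast
    simp only [hr _, Finset.mul_sum]
    rw [Finset.sum_comm]
    exact Finset.sum_congr rfl fun k _ => Finset.sum_congr rfl fun i _ => by ring
  -- the pieces in `U`
  have hpiece : ∀ K, (∃ u0 ∈ U, u0 ∈ PK a K) → ∀ u ∈ PK a K, u ∈ U := by
    rintro K ⟨u0, hu0, s0, h1, h2, h3⟩ u ⟨s, h4, h5, h6⟩
    have hs0 : ∀ k, 0 ≤ s k := fun k => by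
      by_cases hk : k ∈ K
      · exact (h4 k hk).le
      · exact (h5 k hk).ge
    have hnn : ∀ i, (0 : ℝ) ≤ lf (h i) u := fun i => by
      rw [hlf s u h6 i]
      exact Finset.sum_nonneg fun k _ => mul_nonneg (hs0 k) (by exact_mod_cast hah k i)
    refine ⟨fun i => by exact_mod_cast hnn i, fun i hi => ?_⟩
    have h7 := hu0.2 i hi
    have h8 : (0 : ℝ) < ∑ k, s0 k * (lf (h i) (a k) : ℝ) := by
      rw [← hlf s0 u0 h3 i]
      exact_mod_cast h7
    obtain ⟨k, hk⟩ : ∃ k, s0 k * (lf (h i) (a k) : ℝ) ≠ 0 := by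
      by_contra hcon
      push Not at hcon
      rw [Finset.sum_eq_zero fun k _ => hcon k] at h8
      exact lt_irrefl _ h8
    have hkK : k ∈ K := by
      by_contra hkK
      exact hk (by rw [h2 k hkK, zero_mul])
    have hpos : (0 : ℝ) < lf (h i) (a k) :=
      lt_of_le_of_ne (by exact_mod_cast hah k i) (Ne.symm (right_ne_zero_of_mul hk))
    have h9 : (0 : ℝ) < lf (h i) u := by
      rw [hlf s u h6 i]
      exact Finset.sum_pos' (fun k _ => mul_nonneg (hs0 k) (by exact_mod_cast hah k i))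
        ⟨k, Finset.mem_univ k, mul_pos (h4 k hkK) hpos⟩
    exact_mod_cast h9
  set KK : Finset (Finset {b // b ∈ A}) := Finset.univ.filter fun K =>
    Opt a c K ∧ ∃ u0 ∈ U, u0 ∈ PK a K with hKK
  have hmem : ∀ K, K ∈ KK ↔ Opt a c K ∧ ∃ u0 ∈ U, u0 ∈ PK a K := fun K => by
    rw [hKK, Finset.mem_filter]
    exact ⟨fun h => h.2, fun h => ⟨Finset.mem_univ _, h⟩⟩
  obtain ⟨L, hL⟩ := exists_kil_sum KK (fun K => Fs y ρ ν l g (PK a K)) fun K hK =>
    kil_piece hy hb a K (hc K ((hmem K).1 hK).1)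
  refine ⟨L, ?_⟩
  have e : Fs y ρ ν l g U = ∑ K ∈ KK, Fs y ρ ν l g (PK a K) := by
    funext lam t
    have h1 : ∀ s : Finset (Finset {b // b ∈ A}), s ⊆ KK →
        Fs y ρ ν l g {u | ∃ K ∈ s, u ∈ PK a K} lam t = ∑ K ∈ s, Fs y ρ ν l g (PK a K) lam t := by
      intro s
      induction s using Finset.induction_on with
      | empty =>
        intro _
        rw [Finset.sum_empty]
        unfold Fs
        rw [← tsum_zero (α := ℂ) (β := κ → ℕ)]
        refine tsum_congr fun u => iv_neg ?_ _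
        rintro ⟨⟨K, hK, -⟩, -⟩
        simp at hK
      | insert K s hKs ih =>
        intro hsub
        rw [Finset.sum_insert hKs, ← ih fun K' hK' => hsub (Finset.mem_insert_of_mem hK')]
        refine Fs_union hb _ _ _ (fun u => ?_) (fun u h1 h2 => ?_) lam t
        · constructor
          · rintro ⟨K', hK', hu⟩
            rcases Finset.mem_insert.1 hK' with rfl | hK'
            · exact Or.inl hu
            · exact Or.inr ⟨K', hK', hu⟩
          · rintro (hu | ⟨K', hK', hu⟩)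
            · exact ⟨K, Finset.mem_insert_self _ _, hu⟩
            · exact ⟨K', Finset.mem_insert_of_mem hK', hu⟩
        · obtain ⟨K', hK', hu⟩ := h2
          have := hdis K K' u ((hmem K).1 (hsub (Finset.mem_insert_self _ _))).1
            ((hmem K').1 (hsub (Finset.mem_insert_of_mem hK'))).1 h1 hu
          exact hKs (this ▸ hK')
    rw [Finset.sum_apply, Finset.sum_apply, ← h1 KK (Finset.Subset.refl _)]
    congr 1
    ext u
    constructor
    · intro hu
      obtain ⟨s, hs⟩ := hgen u hu.1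
      obtain ⟨K, hK, huK⟩ := hcov u ⟨fun k => (s k.1 : ℝ), fun k => Nat.cast_nonneg _, fun i => by
        have h2 := congrFun hs i
        rw [Finset.sum_apply] at h2
        rw [h2]
        push_cast
        rw [← Finset.sum_coe_sort A (fun b => (((s b • b) i : ℕ) : ℝ))]
        refine Finset.sum_congr rfl fun b _ => ?_
        simp [a]⟩
      exact ⟨K, (hmem K).2 ⟨hK, u, hu, huK⟩, huK⟩
    · rintro ⟨K, hK, huK⟩
      exact hpiece K ((hmem K).1 hK).2 u huK
  rw [e]
  exact hL

end Pool.Agent.TH216.LR
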