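import Pool.Agent.TH216.LR.Lr2

set_option autoImplicit false

/-! Going down in the height. -/

namespace Pool.Agent.TH216.LR

open Filter

/-- the shift -/
def sh : Module.End ℂ (ℤ → ℂ) where
  toFun s := fun t => s (t - 1)
  map_add' _ _ := rfl
  map_smul' _ _ := rfl

lemma sh_pow (n : ℕ) (s : ℤ → ℂ) (t : ℤ) : (sh ^ n) s t = s (t - n) := by
  induction n generalizing t with
  | zero => simp
  | succ n ih =>
    rw [pow_succ']
    show (sh ^ n) s (t - 1) = _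
    rw [ih]
    congr 1
    push_cast
    ring

lemma aeval_sh (Q : Polynomial ℂ) (s : ℤ → ℂ) (t : ℤ) : (Polynomial.aeval sh Q) s t =
    ∑ m ∈ Finset.range (Q.natDegree + 1), Q.coeff m * s (t - m) := by
  rw [Polynomial.aeval_eq_sum_range, LinearMap.sum_apply, Finset.sum_apply]
  refine Finset.sum_congr rfl fun m _ => ?_
  rw [LinearMap.smul_apply, Pi.smul_apply, smul_eq_mul, sh_pow]

lemma ev_tr (s : ℤ → ℂ) (h : ∀ᶠ t : ℤ in atTop, s t = 0) (n : ℤ) :
    ∀ᶠ t : ℤ in atTop, s (t - n) = 0 := by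
  have h1 : Tendsto (fun t : ℤ => t - n) atTop atTop :=
    tendsto_atTop_add_const_right _ _ tendsto_id
  exact h1.eventually h

lemma ev_aeval (Q : Polynomial ℂ) (s : ℤ → ℂ) (h : ∀ᶠ t : ℤ in atTop, s t = 0) :
    ∀ᶠ t : ℤ in atTop, (Polynomial.aeval sh Q) s t = 0 := by
  have h1 := (eventually_all_finset (Finset.range (Q.natDegree + 1))).2
    fun m (_ : m ∈ Finset.range (Q.natDegree + 1)) => ev_tr s h m
  filter_upwards [h1] with t ht
  rw [aeval_sh]
  exact Finset.sum_eq_zero fun m hm => by rw [ht m hm, mul_zero]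

/-- regular at `T0` -/
def Rg (T0 : ℂ) (s : ℤ → ℂ) : Prop :=
  ∃ Q : Polynomial ℂ, Q.eval T0 ≠ 0 ∧ ∀ᶠ t : ℤ in atTop, (Polynomial.aeval sh Q) s t = 0

lemma Rg.add {T0 : ℂ} {s s' : ℤ → ℂ} (h : Rg T0 s) (h' : Rg T0 s') : Rg T0 (s + s') := by
  obtain ⟨Q, hQ, hs⟩ := h
  obtain ⟨Q', hQ', hs'⟩ := h'
  refine ⟨Q * Q', by rw [Polynomial.eval_mul]; exact mul_ne_zero hQ hQ', ?_⟩
  filter_upwards [ev_aeval Q' _ hs, ev_aeval Q _ hs'] with t h1 h2
  rw [map_add, Pi.add_apply, map_mul]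
  have e1 : (Polynomial.aeval sh Q * Polynomial.aeval sh Q') s t = 0 := by
    rw [← map_mul, mul_comm, map_mul]
    exact h1
  have e2 : (Polynomial.aeval sh Q * Polynomial.aeval sh Q') s' t = 0 := h2
  rw [e1, e2, add_zero]

lemma Rg.smul {T0 : ℂ} {s : ℤ → ℂ} (a : ℂ) (h : Rg T0 s) : Rg T0 (a • s) := by
  obtain ⟨Q, hQ, hs⟩ := h
  refine ⟨Q, hQ, ?_⟩
  filter_upwards [hs] with t h1
  rw [map_smul, Pi.smul_apply, h1, smul_zero]

lemma Rg.zero {T0 : ℂ} : Rg T0 0 := ⟨1, by simp, by simp⟩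

lemma Rg.sum {T0 : ℂ} {ι : Type} (I : Finset ι) (s : ι → ℤ → ℂ) (h : ∀ i ∈ I, Rg T0 (s i)) :
    Rg T0 (∑ i ∈ I, s i) := by
  classical
  induction I using Finset.induction_on with
  | empty => rw [Finset.sum_empty]; exact Rg.zero
  | insert a I ha ih =>
    rw [Finset.sum_insert ha]
    exact (h a (Finset.mem_insert_self _ _)).add (ih fun i hi => h i (Finset.mem_insert_of_mem hi))

lemma Rg.tr {T0 : ℂ} {s : ℤ → ℂ} (n : ℤ) (h : Rg T0 s) : Rg T0 (fun t => s (t - n)) := by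
  obtain ⟨Q, hQ, hs⟩ := h
  refine ⟨Q, hQ, ?_⟩
  filter_upwards [ev_tr _ hs n] with t h1
  rw [aeval_sh] at h1 ⊢
  rw [← h1]
  refine Finset.sum_congr rfl fun m _ => ?_
  rw [sub_right_comm]

lemma Rg.congr {T0 : ℂ} {s s' : ℤ → ℂ} (h : Rg T0 s) (he : ∀ t, s t = s' t) : Rg T0 s' := by
  have : s = s' := funext he
  exact this ▸ h

/-- one operator, backwards -/
lemma Rg.of_op {T0 : ℂ} {p : ℂ × ℕ × ℕ} (hp : p.1 ≠ 0) {F : ℤ → ℤ → ℂ} {lam : ℤ}
    (h : Rg T0 (F (lam + p.2.2))) (h' : Rg T0 (op p F (lam + p.2.2))) : Rg T0 (F lam) := by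
  have h1 := (h.add (h'.smul (-1))).smul p.1⁻¹
  have h2 := h1.tr (-(p.2.1 : ℤ))
  refine h2.congr fun t => ?_
  simp only [Pi.smul_apply, Pi.add_apply, smul_eq_mul, op]
  have e1 : lam + (p.2.2 : ℤ) - p.2.2 = lam := by ring
  have e2 : t - -(p.2.1 : ℤ) - p.2.1 = t := by ring
  rw [e1, e2]
  field_simp
  ring

lemma Rg.op {T0 : ℂ} {p : ℂ × ℕ × ℕ} {F : ℤ → ℤ → ℂ} {lam : ℤ}
    (h : Rg T0 (F lam)) (h' : Rg T0 (F (lam - p.2.2))) : Rg T0 (op p F lam) := by
  refine (h.add ((h'.tr p.2.1).smul (-p.1))).congr fun t => ?_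
  simp only [Pi.smul_apply, Pi.add_apply, smul_eq_mul, LR.op]
  ring

/-- **Going down.** -/
theorem desc {T0 : ℂ} (L : List (ℂ × ℕ × ℕ)) (hp : ∀ p ∈ L, p.1 ≠ 0 ∧ 0 < p.2.2)
    (F : ℤ → ℤ → ℂ) (hbig : ∃ lam0 : ℤ, ∀ lam, lam0 ≤ lam → Rg T0 (F lam))
    (hk : ∀ lam : ℤ, (hL L : ℤ) < lam → Rg T0 (opL L F lam)) :
    ∀ lam : ℤ, 0 < lam → Rg T0 (F lam) := by
  induction L with
  | nil =>
    intro lam hlam
    exact hk lam (by simpa [hL] using hlam)
  | cons p L ih =>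
    have hp0 := hp p List.mem_cons_self
    -- the function after the operators of `L`
    have hbig' : ∀ (L : List (ℂ × ℕ × ℕ)), ∃ lam0 : ℤ, ∀ lam, lam0 ≤ lam →
        Rg T0 (opL L F lam) := by
      intro L
      induction L with
      | nil => exact hbig
      | cons p' L ih' =>
        obtain ⟨l0, hl0⟩ := ih'
        refine ⟨l0 + p'.2.2, fun lam hlam => ?_⟩
        have := Int.natCast_nonneg p'.2.2
        exact Rg.op (hl0 lam (by linarith)) (hl0 _ (by linarith))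
    obtain ⟨l0, hl0⟩ := hbig' L
    have key : ∀ n : ℕ, ∀ lam : ℤ, (hL L : ℤ) < lam → l0 - n ≤ lam → Rg T0 (opL L F lam) := by
      intro n
      induction n with
      | zero =>
        intro lam _ h
        exact hl0 lam (by simpa using h)
      | succ n ihn =>
        intro lam h1 h2
        have hpos : (1 : ℤ) ≤ (p.2.2 : ℤ) := by exact_mod_cast hp0.2
        refine Rg.of_op hp0.1 (ihn (lam + p.2.2) (by linarith) ?_) ?_
        · push_cast at h2
          linarith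
        · exact hk (lam + p.2.2) (by rw [hL_cons]; push_cast; linarith)
    refine ih (fun p' hp' => hp p' (List.mem_cons_of_mem _ hp')) fun lam hlam => ?_
    exact key (l0 - lam).toNat lam hlam (by
      have := Int.self_le_toNat (l0 - lam)
      linarith)

end Pool.Agent.TH216.LR
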