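import Pool.Agent.TH216.LR.Lr3
import Pool.Agent.TH216.MF.MotB

set_option autoImplicit false

/-! The generating functions of the points with `x_i ≥ lam`, `i ∈ D`. -/

namespace Pool.Agent.TH216.LR

open Filter MvPolynomial
open Pool.Agent.TH216.MF
open Pool.Agent.W426.SM (gord)
open Pool.Agent.W803.SM (filt gord_le exists_gord mem_filt filt_nonempty summable_half)

variable {r N : ℕ}

/-- the coefficients, for the points with support `J` and `x_i ≥ lam` for `i ∈ D` -/
noncomputable def aL (q : ℕ) (v : Fin r → Fin N → ℕ) (e : Finset (Fin r) → ℂ)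
    (J D : Finset (Fin N)) (lam t : ℤ) : ℂ :=
  ∑' x : Fin N → ℕ, iv ((∀ i, x i ≠ 0 ↔ i ∈ J) ∧ ∀ i ∈ D, lam ≤ x i)
    ((q : ℂ)⁻¹ ^ (∑ i, x i) * Wt v e t x)

/-- the linear forms of a cell -/
def hO (v : Fin r → Fin N → ℕ) (J D : Finset (Fin N)) (τ : Finset (Fin r)) :
    (Fin N ⊕ Fin N ⊕ Unit ⊕ (Fin r × Fin r)) → Option (Fin N) → ℤ := open Classical in
  fun c o => match c with
    | Sum.inl i => if o = some i then (if i ∈ J then 1 else -1) else 0
    | Sum.inr (Sum.inl i) =>
        if i ∈ D then (if o = some i then 1 else 0) + (if o = none then -1 else 0) else 0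
    | Sum.inr (Sum.inr (Sum.inl _)) => if o = none then 1 else 0
    | Sum.inr (Sum.inr (Sum.inr p)) => if p.1 ∈ τ then
        (match o with
          | none => 0
          | some i => (v p.2 i : ℤ) - v p.1 i) else 0

/-- the strict ones -/
def SpO (J : Finset (Fin N)) (τ : Finset (Fin r)) :
    (Fin N ⊕ Fin N ⊕ Unit ⊕ (Fin r × Fin r)) → Prop
  | Sum.inl i => i ∈ J
  | Sum.inr (Sum.inl _) => False
  | Sum.inr (Sum.inr (Sum.inl _)) => True
  | Sum.inr (Sum.inr (Sum.inr p)) => p.1 ∈ τ ∧ p.2 ∉ τ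

/-- the cell -/
def UO (v : Fin r → Fin N → ℕ) (J D : Finset (Fin N)) (τ : Finset (Fin r)) :
    Set (Option (Fin N) → ℕ) :=
  {u | (∀ c, 0 ≤ lf (hO v J D τ c) u) ∧ ∀ c, SpO J τ c → 0 < lf (hO v J D τ c) u}

lemma lf_1 (v : Fin r → Fin N → ℕ) (J D : Finset (Fin N)) (τ : Finset (Fin r))
    (u : Option (Fin N) → ℕ) (i : Fin N) :
    lf (hO v J D τ (Sum.inl i)) u = open Classical in if i ∈ J then (u (some i) : ℤ) else
      -(u (some i) : ℤ) := by
  classical
  unfold lf hO
  rw [Fintype.sum_option, Finset.sum_eq_single i]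
  · simp only [reduceCtorEq, if_false, zero_mul, zero_add, if_true]
    split_ifs <;> simp
  · intro i' _ hi'
    show (if some i' = some i then (if i ∈ J then (1 : ℤ) else -1) else 0) * _ = 0
    rw [if_neg fun h => hi' (Option.some_injective _ h), zero_mul]
  · intro h
    exact absurd (Finset.mem_univ _) h

lemma lf_2 (v : Fin r → Fin N → ℕ) (J D : Finset (Fin N)) (τ : Finset (Fin r))
    (u : Option (Fin N) → ℕ) (i : Fin N) :
    lf (hO v J D τ (Sum.inr (Sum.inl i))) u = open Classical in if i ∈ D then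
      (u (some i) : ℤ) - u none else 0 := by
  classical
  unfold lf hO
  by_cases hi : i ∈ D
  · simp only [if_pos hi]
    rw [Fintype.sum_option, Finset.sum_eq_single i]
    · simp
      ring
    · intro i' _ hi'
      rw [if_neg fun h => hi' (Option.some_injective _ h)]
      simp
    · intro h
      exact absurd (Finset.mem_univ _) h
  · simp [hi]

lemma lf_3 (v : Fin r → Fin N → ℕ) (J D : Finset (Fin N)) (τ : Finset (Fin r))
    (u : Option (Fin N) → ℕ) :
    lf (hO v J D τ (Sum.inr (Sum.inr (Sum.inl ())))) u = u none := by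
  classical
  unfold lf hO
  rw [Fintype.sum_option]
  simp

lemma lf_4 (v : Fin r → Fin N → ℕ) (J D : Finset (Fin N)) (τ : Finset (Fin r))
    (u : Option (Fin N) → ℕ) (p : Fin r × Fin r) :
    lf (hO v J D τ (Sum.inr (Sum.inr (Sum.inr p)))) u = open Classical in if p.1 ∈ τ then
      ((∑ i, u (some i) * v p.2 i : ℕ) : ℤ) - ((∑ i, u (some i) * v p.1 i : ℕ) : ℤ) else 0 := by
  classical
  unfold lf hO
  by_cases hp : p.1 ∈ τ
  · simp only [if_pos hp]
    rw [Fintype.sum_option, zero_mul, zero_add]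
    push_cast
    rw [← Finset.sum_sub_distrib]
    exact Finset.sum_congr rfl fun i _ => by ring
  · simp [hp]

lemma mem_UO (hr : 0 < r) (v : Fin r → Fin N → ℕ) (J D : Finset (Fin N)) (τ : Finset (Fin r))
    (hτ : τ.Nonempty) (u : Option (Fin N) → ℕ) :
    u ∈ UO v J D τ ↔ 0 < u none ∧ (∀ i, u (some i) ≠ 0 ↔ i ∈ J) ∧
      (∀ i ∈ D, u none ≤ u (some i)) ∧ filt v (fun i => u (some i)) = τ := by
  classical
  constructor
  · rintro ⟨h1, h2⟩
    refine ⟨?_, fun i => ?_, fun i hi => ?_, ?_⟩
    · have h3 := h2 (Sum.inr (Sum.inr (Sum.inl ()))) trivial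
      rw [lf_3] at h3
      exact_mod_cast h3
    · by_cases hi : i ∈ J
      · have h3 := h2 (Sum.inl i) hi
        rw [lf_1, if_pos hi] at h3
        have h4 : 0 < u (some i) := by exact_mod_cast h3
        exact ⟨fun _ => hi, fun _ => h4.ne'⟩
      · have h3 := h1 (Sum.inl i)
        rw [lf_1, if_neg hi] at h3
        constructor
        · intro h
          exfalso
          apply h
          omega
        · intro h
          exact absurd h hi
    · have h3 := h1 (Sum.inr (Sum.inl i))
      rw [lf_2, if_pos hi] at h3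
      omega
    · obtain ⟨j0, hj0⟩ := hτ
      -- all of `τ` has the same value, the minimum
      have hle : ∀ j ∈ τ, ∀ j', ∑ i, u (some i) * v j i ≤ ∑ i, u (some i) * v j' i := by
        intro j hj j'
        have h3 := h1 (Sum.inr (Sum.inr (Sum.inr (j, j'))))
        rw [lf_4, if_pos hj] at h3
        simp only at h3
        omega
      have hlt : ∀ j ∈ τ, ∀ j', j' ∉ τ → ∑ i, u (some i) * v j i < ∑ i, u (some i) * v j' i := by
        intro j hj j' hj'
        have h3 := h2 (Sum.inr (Sum.inr (Sum.inr (j, j')))) ⟨hj, hj'⟩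
        rw [lf_4, if_pos hj] at h3
        simp only at h3
        omega
      have hg : ∑ i, u (some i) * v j0 i = gord v (fun i => u (some i)) := by
        obtain ⟨j1, hj1⟩ := exists_gord hr v (fun i => u (some i))
        have h3 := gord_le v (fun i => u (some i)) j0
        have h4 := hle j0 hj0 j1
        omega
      ext j
      rw [mem_filt]
      constructor
      · intro h
        by_contra hj
        have h5 := hlt j0 hj0 j hj
        omega
      · intro hj
        have h5 := hle j hj j0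
        have h6 := hle j0 hj0 j
        omega
  · rintro ⟨h1, h2, h3, rfl⟩
    have h4 : ∀ j ∈ filt v (fun i => u (some i)), ∀ j',
        ∑ i, u (some i) * v j i ≤ ∑ i, u (some i) * v j' i := by
      intro j hj j'
      rw [mem_filt] at hj
      rw [hj]
      exact gord_le v _ j'
    constructor
    · rintro (i | i | ⟨⟩ | p)
      · rw [lf_1]
        split_ifs with hi
        · exact Int.natCast_nonneg _
        · have : u (some i) = 0 := by
            by_contra h
            exact hi ((h2 i).1 h)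
          rw [this]
          simp
      · rw [lf_2]
        split_ifs with hi
        · have := h3 i hi
          omega
        · exact le_rfl
      · rw [lf_3]
        exact Int.natCast_nonneg _
      · rw [lf_4]
        split_ifs with hp
        · have := h4 p.1 hp p.2
          omega
        · exact le_rfl
    · rintro (i | i | ⟨⟩ | p) hs
      · rw [lf_1, if_pos (show i ∈ J from hs)]
        have := (h2 i).2 hs
        omega
      · exact hs.elim
      · rw [lf_3]
        exact_mod_cast h1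
      · rw [lf_4, if_pos hs.1]
        have h5 := h4 p.1 hs.1 p.2
        have h6 : ∑ i, u (some i) * v p.1 i ≠ ∑ i, u (some i) * v p.2 i := by
          intro h
          apply hs.2
          rw [mem_filt, ← h]
          exact mem_filt.1 hs.1
        omega

/-- the value as a function of `t - N` -/
noncomputable def gO (e : Finset (Fin r) → ℂ) (τ : Finset (Fin r)) (s : ℤ) : ℂ :=
  if s < 0 then e ∅ else if s = 0 then e τ else 0

lemma Wt_gO (hr : 0 < r) (v : Fin r → Fin N → ℕ) (e : Finset (Fin r) → ℂ) (t : ℤ)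
    (x : Fin N → ℕ) : Wt v e t x = gO e (filt v x) (t - gord v x) := by
  classical
  unfold Wt gO
  obtain ⟨j0, hj0⟩ := exists_gord hr v x
  rcases lt_trichotomy t (gord v x) with h | h | h
  · rw [if_pos fun j => ?_, if_pos (by linarith)]
    · congr 1
      refine Finset.filter_false_of_mem fun j _ hj => ?_
      have := gord_le v x j
      omega
    · have := gord_le v x j
      omega
  · rw [if_pos fun j => ?_, if_neg (by linarith), if_pos (by linarith)]
    · congr 1
      ext j
      rw [mem_filt, Finset.mem_filter, h]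
      constructor
      · rintro ⟨-, h1⟩
        exact_mod_cast h1
      · intro h1
        exact ⟨Finset.mem_univ _, by exact_mod_cast h1⟩
    · have := gord_le v x j
      omega
  · rw [if_neg fun h1 => ?_, if_neg (by linarith), if_neg (by linarith)]
    have := h1 j0
    omega

lemma norm_gO (e : Finset (Fin r) → ℂ) (τ : Finset (Fin r)) (s : ℤ) :
    ‖gO e τ s‖ ≤ ∑ J, ‖e J‖ := by
  unfold gO
  split_ifs
  · exact Finset.single_le_sum (fun _ _ => norm_nonneg _) (Finset.mem_univ _)
  · exact Finset.single_le_sum (fun _ _ => norm_nonneg _) (Finset.mem_univ _)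
  · rw [norm_zero]
    exact Finset.sum_nonneg fun _ _ => norm_nonneg _

/-- the weight forms -/
def rO (N : ℕ) : Option (Fin N) → ℕ
  | none => 0
  | some _ => 1

/-- the height form -/
def lO (N : ℕ) : Option (Fin N) → ℕ
  | none => 1
  | some _ => 0

/-- the value form -/
def nO (v : Fin r → Fin N → ℕ) (j : Fin r) : Option (Fin N) → ℕ
  | none => 0
  | some i => v j i

lemma nf_rO (u : Option (Fin N) → ℕ) : nf (rO N) u = ∑ i, u (some i) := by
  unfold nf
  rw [Fintype.sum_option]
  simp [rO]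

lemma nf_lO (u : Option (Fin N) → ℕ) : nf (lO N) u = u none := by
  unfold nf
  rw [Fintype.sum_option]
  simp [lO]

lemma nf_nO (v : Fin r → Fin N → ℕ) (j : Fin r) (u : Option (Fin N) → ℕ) :
    nf (nO v j) u = ∑ i, u (some i) * v j i := by
  unfold nf
  rw [Fintype.sum_option]
  simp only [nO, zero_mul, zero_add]
  exact Finset.sum_congr rfl fun i _ => mul_comm _ _

/-- the points with given height -/
def ext0 (lam : ℕ) (x : Fin N → ℕ) : Option (Fin N) → ℕ
  | none => lam
  | some i => x i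

lemma ext0_inj (lam : ℕ) : Function.Injective (ext0 lam : (Fin N → ℕ) → Option (Fin N) → ℕ) := by
  intro x y h
  funext i
  exact congrFun h (some i)

lemma sb_O (q : ℕ) (hq : 2 ≤ q) (v : Fin r → Fin N → ℕ) (e : Finset (Fin r) → ℂ) (j : Fin r)
    (τ : Finset (Fin r)) : Sb ((q : ℂ)⁻¹) (rO N) (nO v j) (lO N) (gO e τ) := by
  intro lam t
  by_cases hlam : 0 ≤ lam
  · obtain ⟨n, rfl⟩ := Int.eq_ofNat_of_zero_le hlam
    rw [← (ext0_inj n).summable_iff]
    · have h1 := summable_Q q hq (fun _ : Fin N → ℕ => True)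
        (fun x => gO e τ (t - nf (nO v j) (ext0 n x))) (∑ J, ‖e J‖) fun x => norm_gO e τ _
      refine h1.congr fun x => ?_
      rw [iv_pos trivial]
      show _ = iv _ _
      rw [iv_pos (by rw [nf_lO]; rfl), nf_rO]
      rfl
    · intro u hu
      rw [iv_neg]
      intro h
      apply hu
      rw [nf_lO] at h
      refine ⟨fun i => u (some i), ?_⟩
      funext o
      cases o with
      | none => show n = _; exact_mod_cast h.symm
      | some i => rfl
  · refine (summable_zero).congr fun u => ?_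
    rw [iv_neg]
    intro h
    have := Int.natCast_nonneg (nf (lO N) u)
    omega

/-- the sum over a cell -/
lemma Fs_UO (hr : 0 < r) (q : ℕ) (v : Fin r → Fin N → ℕ) (e : Finset (Fin r) → ℂ)
    (J D : Finset (Fin N)) (τ : Finset (Fin r)) (hτ : τ.Nonempty) (j : Fin r) (hj : j ∈ τ)
    (lam : ℕ) (hlam : 0 < lam) (t : ℤ) :
    Fs ((q : ℂ)⁻¹) (rO N) (nO v j) (lO N) (gO e τ) (UO v J D τ) lam t =
      ∑' x : Fin N → ℕ, iv (((∀ i, x i ≠ 0 ↔ i ∈ J) ∧ ∀ i ∈ D, (lam : ℤ) ≤ x i) ∧ filt v x = τ)
        ((q : ℂ)⁻¹ ^ (∑ i, x i) * Wt v e t x) := by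
  unfold Fs
  rw [← (ext0_inj lam).tsum_eq]
  · refine tsum_congr fun x => ?_
    rw [nf_rO]
    by_cases h : ((∀ i, x i ≠ 0 ↔ i ∈ J) ∧ ∀ i ∈ D, (lam : ℤ) ≤ x i) ∧ filt v x = τ
    · rw [iv_pos h, iv_pos ⟨(mem_UO hr v J D τ hτ _).2 ⟨hlam, h.1.1, fun i hi => by
        exact_mod_cast h.1.2 i hi, h.2⟩, by rw [nf_lO]; rfl⟩, Wt_gO hr, h.2, nf_nO]
      have h1 : ∑ i, x i * v j i = gord v x := by
        rw [← mem_filt, h.2]
        exact hj
      show (q : ℂ)⁻¹ ^ (∑ i, x i) * gO e τ (t - ((∑ i, x i * v j i : ℕ) : ℤ)) = _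
      rw [h1]
    · rw [iv_neg h, iv_neg]
      rintro ⟨h1, h2⟩
      obtain ⟨-, h3, h4, h5⟩ := (mem_UO hr v J D τ hτ _).1 h1
      exact h ⟨⟨h3, fun i hi => by exact_mod_cast h4 i hi⟩, h5⟩
  · intro u hu
    rw [Function.mem_support] at hu
    by_contra hcon
    apply hu
    rw [iv_neg]
    rintro ⟨-, h⟩
    apply hcon
    rw [nf_lO] at h
    refine ⟨fun i => u (some i), ?_⟩
    funext o
    cases o with
    | none => show lam = _; exact_mod_cast h.symm
    | some i => rfl

/-- **Going down for the generating functions.** -/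
theorem desc_aL (hr : 0 < r) (q : ℕ) (hq : 2 ≤ q) (v : Fin r → Fin N → ℕ)
    (e : Finset (Fin r) → ℂ) (J D : Finset (Fin N)) (T0 : ℂ)
    (hbig : ∃ lam0 : ℤ, ∀ lam, lam0 ≤ lam → Rg T0 (aL q v e J D lam)) :
    Rg T0 (aL q v e J D 1) := by
  classical
  have hy : ((q : ℂ)⁻¹) ≠ 0 := inv_ne_zero (by
    have : q ≠ 0 := by omega
    exact_mod_cast this)
  set TT : Finset (Finset (Fin r)) := Finset.univ.filter fun τ => τ.Nonempty with hTT
  have hmT : ∀ τ, τ ∈ TT ↔ τ.Nonempty := fun τ => by rw [hTT, Finset.mem_filter]; simp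
  let pk : Finset (Fin r) → Fin r := fun τ => if h : τ.Nonempty then h.choose else ⟨0, hr⟩
  have hpk : ∀ τ : Finset (Fin r), τ.Nonempty → pk τ ∈ τ := fun τ h => by
    simp only [pk, dif_pos h]
    exact h.choose_spec
  set G : Finset (Fin r) → ℤ → ℤ → ℂ := fun τ =>
    Fs ((q : ℂ)⁻¹) (rO N) (nO v (pk τ)) (lO N) (gO e τ) (UO v J D τ) with hG
  obtain ⟨L, hL⟩ := exists_kil_sum TT G fun τ hτ =>
    kil_cone (hO v J D τ) (SpO J τ) hy (sb_O q hq v e (pk τ) τ)
  have hsum : ∀ lam : ℤ, 0 < lam → (∑ τ ∈ TT, G τ) lam = aL q v e J D lam := by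
    intro lam hlam
    obtain ⟨n, rfl⟩ := Int.eq_ofNat_of_zero_le hlam.le
    have hn : 0 < n := by exact_mod_cast hlam
    funext t
    rw [Finset.sum_apply, Finset.sum_apply]
    have h1 : ∀ τ ∈ TT, G τ (n : ℤ) t = ∑' x : Fin N → ℕ,
        iv (((∀ i, x i ≠ 0 ↔ i ∈ J) ∧ ∀ i ∈ D, (n : ℤ) ≤ x i) ∧ filt v x = τ)
        ((q : ℂ)⁻¹ ^ (∑ i, x i) * Wt v e t x) := fun τ hτ =>
      Fs_UO hr q v e J D τ ((hmT τ).1 hτ) (pk τ) (hpk τ ((hmT τ).1 hτ)) n hn t
    rw [Finset.sum_congr rfl h1, ← Summable.tsum_finsetSum]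
    · unfold aL
      refine tsum_congr fun x => ?_
      rw [Finset.sum_eq_single (filt v x)]
      · exact iv_congr ⟨fun h => h.1, fun h => ⟨h, rfl⟩⟩ _
      · intro τ _ hτ
        exact iv_neg (fun h => hτ h.2.symm) _
      · intro h
        exact absurd ((hmT _).2 (filt_nonempty hr v x)) h
    · intro τ _
      exact summable_Q q hq _ (fun x => Wt v e t x) _ fun x => norm_Wt v e t x
  have h1 := desc (T0 := T0) L hL.1 (∑ τ ∈ TT, G τ) (by
    obtain ⟨l0, hl0⟩ := hbig
    refine ⟨max l0 1, fun lam hlam => ?_⟩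
    rw [hsum lam (by have := le_max_right l0 1; linarith)]
    exact hl0 lam ((le_max_left _ _).trans hlam)) (fun lam hlam => by
      have : opL L (∑ τ ∈ TT, G τ) lam = 0 := funext fun t => hL.2 lam hlam t
      rw [this]
      exact Rg.zero) 1 one_pos
  rwa [hsum 1 one_pos] at h1

end Pool.Agent.TH216.LR
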