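import Pool.Agent.TH216.LR.Lr4
import Pool.Agent.TH216.MF.CoreU

set_option autoImplicit false

/-! The far part and the generating functions of the points with `x_i ≥ lam`. -/

namespace Pool.Agent.TH216.LR

open Filter MvPolynomial
open Pool.Agent.TH216.MF
open Pool.Agent.W425.SV (Kil1)

variable {r N : ℕ}

/-- **The main theorem far away.** -/
theorem coreFar (q : ℕ) (hq : 2 ≤ q) (v : Fin r → Fin N → ℕ) (p : Polynomial ℂ) (θ : Fin r → ℤ)
    (D : ℤ) (w0 : Fin r → ℕ) (hw0 : ∀ j, (w0 j : ℤ) = D - θ j)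
    (hrel : RelG v (Kil1 v) (KilU v θ) p) (k : MvPolynomial (Fin r) ℂ) (hk : Kern q v k)
    (T0 : ℂ) (hT0 : T0 ≠ 0) (hp : p.eval ((-Real.log ‖T0‖ / Real.log q : ℝ) : ℂ) ≠ 0) :
    ∃ Q : Polynomial ℂ, Q.eval T0 ≠ 0 ∧ ∀ w, ∃ m0 : ℕ, ∀ m, m0 ≤ m →
      Z q v (k * (um w0 ^ m * w) * Polynomial.aeval (tau r) Q) := by
  classical
  obtain ⟨G, hG, hGG⟩ := exG v
  set s0 : ℂ := ((-Real.log ‖T0‖ / Real.log q : ℝ) : ℂ) with hs0
  obtain ⟨M, h, hh⟩ := stepBM q hq v G hGG (Kil1 v) (KilU v θ) p hrel T0 hT0 0 p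
    (by rw [pow_zero, one_mul]) hp
  obtain ⟨E, Q, hQ, hQI⟩ := stepC q hq v T0
  obtain ⟨Rt, c, hRt, hF⟩ := FG_one (r := r) q G M hq hG
  set u : MvPolynomial (Fin r) ℂ := (tau r - C T0) * h with hu
  set e0 : MvPolynomial (Fin r) ℂ := (tau r - C T0) ^ 0 with he0
  -- one step
  have h1 : ∀ w, ∃ m0 : ℕ, ∀ m, m0 ≤ m → Z q v (k * (um w0 ^ m * w) * (e0 * (1 - u))) := by
    intro w
    have h2 : ∀ ρ : Fin r → ℂ, ρ ∈ (Fintype.piFinset fun _ : Fin r => Rt) → ∃ m0 : ℕ,
        ∀ m, m0 ≤ m → ∀ᶠ t : ℤ in atTop,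
        HasReg (gen q v (act r (k * (um w0 ^ m * w) *
          ((1 - u) * (e0 * ∏ j, dj q G M j))) (FG ρ)) ∅ t) 0 := by
      intro ρ hρ
      exact kill_IdU hq hG θ D w0 hw0 hk hh ρ (fun j => hRt _ (Fintype.mem_piFinset.1 hρ j)) w
    choose! m1 hm1 using h2
    refine ⟨∑ ρ ∈ (Fintype.piFinset fun _ : Fin r => Rt), m1 ρ, fun m hm => ?_⟩
    have h3 := (eventually_all_finset (Fintype.piFinset fun _ : Fin r => Rt)).2
      fun ρ hρ => hm1 ρ hρ m ((Finset.single_le_sum (f := m1) (fun _ _ => Nat.zero_le _) hρ).trans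
        hm)
    have e3 : ∀ P : MvPolynomial (Fin r) ℂ, k * (um w0 ^ m * w) * (e0 * (1 - u)) * P =
        k * (um w0 ^ m * w) * ((1 - u) * (e0 * P)) := fun P => by ring
    unfold Z
    filter_upwards [h3] with t ht
    have e : act r (k * (um w0 ^ m * w) * (e0 * (1 - u))) (FG fun _ => 1) =
        ∑ ρ ∈ Fintype.piFinset fun _ : Fin r => Rt, (∏ j, c (ρ j)) •
          act r (k * (um w0 ^ m * w) * ((1 - u) * (e0 * ∏ j, dj q G M j))) (FG ρ) := by
      rw [hF, map_sum]
      refine Finset.sum_congr rfl fun ρ _ => ?_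
      rw [map_smul, ← act_mul, e3]
    rw [e, gen_sum]
    have h4 := HasReg.sum (Fintype.piFinset fun _ : Fin r => Rt)
      (fun ρ => gen q v ((∏ j, c (ρ j)) • act r (k * (um w0 ^ m * w) *
        ((1 - u) * (e0 * ∏ j, dj q G M j))) (FG ρ)) ∅ t)
      (fun _ => 0) (fun ρ hρ => by
        rw [gen_smul]
        simpa using (ht ρ hρ).smul (∏ j, c (ρ j)))
    simpa using h4
  -- iteration
  have h2 : ∀ n : ℕ, ∀ w, ∃ m0 : ℕ, ∀ m, m0 ≤ m →
      Z q v (k * (um w0 ^ m * w) * (e0 * (1 - u ^ n))) := by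
    intro n
    induction n with
    | zero =>
      intro w
      refine ⟨0, fun m _ => ?_⟩
      simpa using Z.zero q v
    | succ n ih =>
      intro w
      obtain ⟨m1, hm1⟩ := ih w
      obtain ⟨m2, hm2⟩ := h1 (w * u ^ n)
      refine ⟨max m1 m2, fun m hm => ?_⟩
      have e : k * (um w0 ^ m * w) * (e0 * (1 - u ^ (n + 1))) =
          k * (um w0 ^ m * w) * (e0 * (1 - u ^ n)) +
          k * (um w0 ^ m * (w * u ^ n)) * (e0 * (1 - u)) := by ring
      rw [e]
      exact (hm1 m ((le_max_left _ _).trans hm)).add (hm2 m ((le_max_right _ _).trans hm))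
  refine ⟨Q, hQ, fun w => ?_⟩
  obtain ⟨m0, hm0⟩ := h2 E w
  refine ⟨m0, fun m hm => ?_⟩
  have e2 : ∀ n, Polynomial.aeval (tau r) ((Polynomial.X - Polynomial.C T0) ^ n) =
      (tau r - C T0) ^ n := by
    intro n
    rw [map_pow, map_sub, Polynomial.aeval_X, Polynomial.aeval_C]
    rfl
  have e : k * (um w0 ^ m * w) * Polynomial.aeval (tau r) Q =
      Polynomial.aeval (tau r) Q * (k * (um w0 ^ m * w) * (e0 * (1 - u ^ E))) +
      (k * (um w0 ^ m * w) * e0 * h ^ E) *
        Polynomial.aeval (tau r) ((Polynomial.X - Polynomial.C T0) ^ E * Q) := by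
    rw [map_mul, e2, hu, mul_pow, he0, pow_zero]
    ring
  rw [e]
  exact ((hm0 m hm).poly Q).add (Z.of_I1 hq hQI _)

/-- the exponents of the shift in the directions in `D` -/
def sD (v : Fin r → Fin N → ℕ) (D : Finset (Fin N)) (j : Fin r) : ℕ := ∑ i ∈ D, v j i

lemma act_kE_Wt (v : Fin r → Fin N → ℕ) (e : Finset (Fin r) → ℂ) (t : ℤ) (z : Fin N → ℕ) :
    act r (kE e) (FG fun _ => 1) (fun j => ∑ i, (z i : ℤ) * (v j i : ℤ) - (t + 1)) =
      Wt v e t z := by
  have h3 := coeff_aT 1 v e t (Finsupp.equivFunOnFinite.symm z)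
  rw [coeff_gen, if_pos (by simp)] at h3
  simpa using h3

lemma sum_ind (J : Finset (Fin N)) (f : Fin N → ℤ) : ∑ i ∈ J, f i = ∑ i, (ind J i : ℤ) * f i := by
  classical
  unfold ind
  simp

lemma coeff_aL (q : ℕ) (v : Fin r → Fin N → ℕ) (e : Finset (Fin r) → ℂ) (J D : Finset (Fin N))
    (m : ℕ) (t : ℤ) (x : Fin N →₀ ℕ) : MvPowerSeries.coeff x
      (gen q v (act r ((∏ i ∈ J, (C ((q : ℂ)⁻¹) * ∏ j, X j ^ v j i)) * (um (sD v D) ^ m * kE e))
        (FG fun _ => 1)) (Jᶜ) (t + 1)) = open Classical in if ∀ i ∈ Jᶜ, x i = 0 then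
      (q : ℂ)⁻¹ ^ (∑ i, x i + J.card) * Wt v e t (fun i => x i + (ind J i + m * ind D i)) else 0 := by
  classical
  rw [coeff_gen]
  split_ifs with hx
  swap
  · rfl
  rw [act_mul, act_mons, act_mul, act_um]
  have h2 := act_kE_Wt v e t (fun i => x i + (ind J i + m * ind D i))
  have h3 : (fun j => ∑ i, (x i : ℤ) * (v j i : ℤ) - (t + 1) + ∑ i ∈ J, (v j i : ℤ) +
      (m : ℤ) * ((sD v D j : ℕ) : ℤ)) =
      fun j => ∑ i, (((x i + (ind J i + m * ind D i) : ℕ) : ℕ) : ℤ) *
        (v j i : ℤ) - (t + 1) := by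
    funext j
    unfold sD
    push_cast
    rw [sum_ind J fun i => (v j i : ℤ), sum_ind D fun i => (v j i : ℤ), Finset.mul_sum]
    simp only [add_mul, Finset.sum_add_distrib, mul_assoc]
    ring
  rw [h3, h2, pow_add]
  ring

lemma hasReg_aL (q : ℕ) (hq : 2 ≤ q) (v : Fin r → Fin N → ℕ) (e : Finset (Fin r) → ℂ)
    (J D : Finset (Fin N)) (hD : D ⊆ J) (m : ℕ) (t : ℤ) :
    HasReg (gen q v (act r (kE e * wJ q v J * um (sD v D) ^ m) (FG fun _ => 1)) ∅ (t + 1))
      ((q : ℂ) ^ (m * D.card) * aL q v e J D (m + 1) t) := by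
  classical
  have hq0 : (q : ℂ) ≠ 0 := by
    have : q ≠ 0 := by omega
    exact_mod_cast this
  have e0 : kE e * wJ q v J * um (sD v D) ^ m = (∏ i ∈ Jᶜ, elm q v i) *
      ((∏ i ∈ J, (C ((q : ℂ)⁻¹) * ∏ j, X j ^ v j i)) * (um (sD v D) ^ m * kE e)) := by
    unfold wJ
    ring
  rw [e0, act_mul]
  refine stokes_all q v _ _ ∅ _ _ (fun g => ?_) (Finset.disjoint_empty_right _) ?_
  · rw [← act_mul]
    exact tame_one q hq v _
  rw [Finset.union_empty]
  obtain ⟨c, hc⟩ := (tame_one q hq v ((∏ i ∈ J, (C ((q : ℂ)⁻¹) * ∏ j, X j ^ v j i)) *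
    (um (sD v D) ^ m * kE e))).reg (Jᶜ) (t + 1)
  -- the bijection
  set f : (Fin N → ℕ) → ℂ := fun x => (q : ℂ) ^ (m * D.card) *
    iv ((∀ i, x i ≠ 0 ↔ i ∈ J) ∧ ∀ i ∈ D, ((m : ℤ) + 1) ≤ x i)
      ((q : ℂ)⁻¹ ^ (∑ i, x i) * Wt v e t x) with hf
  have hinj : Function.Injective fun x : Fin N →₀ ℕ =>
      (fun i => x i + (ind J i + m * ind D i) : Fin N → ℕ) := by
    intro x y hxy
    ext i
    have := congrFun hxy i
    simp only at this
    omega
  have hcard : ∀ A : Finset (Fin N), ∑ i, ind A i = A.card := by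
    intro A
    unfold ind
    simp
  have h1 : (fun x : Fin N →₀ ℕ => MvPowerSeries.coeff x
      (gen q v (act r ((∏ i ∈ J, (C ((q : ℂ)⁻¹) * ∏ j, X j ^ v j i)) * (um (sD v D) ^ m * kE e))
        (FG fun _ => 1)) (Jᶜ) (t + 1))) =
        fun x : Fin N →₀ ℕ => f (fun i => x i + (ind J i + m * ind D i)) := by
    funext x
    rw [coeff_aL]
    simp only [hf]
    have h2 : (∀ i ∈ Jᶜ, x i = 0) ↔ ((∀ i, x i + (ind J i + m * ind D i) ≠ 0 ↔ i ∈ J) ∧
        ∀ i ∈ D, ((m : ℤ) + 1) ≤ ((x i + (ind J i + m * ind D i) : ℕ) : ℤ)) := by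
      constructor
      · intro h
        refine ⟨fun i => ?_, fun i hi => ?_⟩
        · by_cases hi : i ∈ J
          · unfold ind
            simp [hi]
          · have h3 := h i (Finset.mem_compl.2 hi)
            have hiD : i ∉ D := fun h' => hi (hD h')
            unfold ind
            simp [hi, hiD, h3]
        · unfold ind
          rw [if_pos (hD hi), if_pos hi]
          push_cast
          have := Int.natCast_nonneg (x i)
          linarith
      · rintro ⟨h, -⟩ i hi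
        have hi' := Finset.mem_compl.1 hi
        have h3 := (h i).not.2 hi'
        push Not at h3
        omega
    by_cases h3 : ∀ i ∈ Jᶜ, x i = 0
    · rw [if_pos h3, iv_pos (h2.1 h3)]
      have h4 : ∑ i, (x i + (ind J i + m * ind D i)) = ∑ i, x i + J.card + m * D.card := by
        rw [Finset.sum_add_distrib, Finset.sum_add_distrib, ← Finset.mul_sum, hcard, hcard]
        ring
      rw [h4, pow_add ((q : ℂ)⁻¹) (∑ i, x i + J.card)]
      have h5 : (q : ℂ) ^ (m * D.card) * (q : ℂ)⁻¹ ^ (m * D.card) = 1 := by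
        rw [← mul_pow, mul_inv_cancel₀ hq0, one_pow]
      linear_combination (-((q : ℂ)⁻¹ ^ (∑ i, x i + J.card) *
        Wt v e t (fun i => x i + (ind J i + m * ind D i)))) * h5
    · rw [if_neg h3, iv_neg fun h => h3 (h2.2 h), mul_zero]
  have hfs : Summable f := (summable_Q q hq _ (fun x => Wt v e t x) _
    fun x => norm_Wt v e t x).mul_left _
  have hsum : HasSum (fun x : Fin N →₀ ℕ => f (fun i => x i + (ind J i + m * ind D i)))
      (∑' x, f x) := by
    have h2 := (hinj.hasSum_iff (f := f) (a := ∑' x, f x) ?_).2 hfs.hasSum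
    · exact h2
    · intro x hx
      simp only [hf]
      rw [iv_neg, mul_zero]
      rintro ⟨h, h'⟩
      apply hx
      refine ⟨Finsupp.equivFunOnFinite.symm fun i => x i - (ind J i + m * ind D i), ?_⟩
      funext i
      simp only [Finsupp.equivFunOnFinite_symm_apply_apply]
      by_cases hiD : i ∈ D
      · have h3 := h' i hiD
        have h4 : m + 1 ≤ x i := by exact_mod_cast h3
        unfold ind
        rw [if_pos (hD hiD), if_pos hiD]
        omega
      · by_cases hi : i ∈ J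
        · have := (h i).2 hi
          unfold ind
          rw [if_pos hi, if_neg hiD]
          omega
        · unfold ind
          rw [if_neg hi, if_neg hiD]
          omega
  have h3 := hc.hasSum (by rw [h1]; exact hsum.summable)
  rw [h1, hsum.tsum_eq] at h3
  have h4 : (q : ℂ) ^ (m * D.card) * aL q v e J D (m + 1) t = c := by
    rw [← h3, hf, tsum_mul_left]
    rfl
  rw [h4]
  exact hc

lemma um_add (w w' : Fin r → ℕ) : (um (fun j => w j + w' j) : MvPolynomial (Fin r) ℂ) =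
    um w * um w' := by
  unfold um
  rw [← Finset.prod_mul_distrib]
  exact Finset.prod_congr rfl fun j _ => pow_add _ _ _

lemma um_const (d : ℕ) : (um (fun _ => d) : MvPolynomial (Fin r) ℂ) = tau r ^ d := by
  unfold um tau
  rw [Finset.prod_pow]

/-- **The local theorem: the points with support `J`.** -/
theorem recJ_loc (hr : 0 < r) (q : ℕ) (hq : 2 ≤ q) (v : Fin r → Fin N → ℕ) (p : Polynomial ℂ)
    (J D : Finset (Fin N)) (hD : D ⊆ J) (d : ℕ)
    (hrel : RelG v (Kil1 v) (KilU v (fun j => -((sD v D j + d : ℕ) : ℤ))) p)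
    (e : Finset (Fin r) → ℂ) (he : KRelJ q v J e) (T0 : ℂ) (hT0 : T0 ≠ 0)
    (hp : p.eval ((-Real.log ‖T0‖ / Real.log q : ℝ) : ℂ) ≠ 0) : RecJ q v e J T0 := by
  classical
  have hq0 : (q : ℂ) ≠ 0 := by
    have : q ≠ 0 := by omega
    exact_mod_cast this
  obtain ⟨Q, hQ, hZ⟩ := coreFar q hq v p _ 0 (fun j => sD v D j + d) (fun j => by ring) hrel
    (kE e * wJ q v J) (kern_J hq v J e he) T0 hT0 hp
  obtain ⟨m0, hm0⟩ := hZ 1
  -- the functions far away are regular
  have hbig : ∀ m : ℕ, m0 ≤ m → Rg T0 (aL q v e J D (m + 1)) := by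
    intro m hm
    have h1 := hm0 m hm
    set Q1 : Polynomial ℂ := Q * Polynomial.X ^ (d * m) with hQ1
    have e1 : kE e * wJ q v J * (um (fun j => sD v D j + d) ^ m * 1) *
        Polynomial.aeval (tau r) Q =
        Polynomial.aeval (tau r) Q1 * (kE e * wJ q v J * um (sD v D) ^ m) := by
      rw [um_add, um_const, hQ1, map_mul, map_pow, Polynomial.aeval_X]
      ring
    rw [e1] at h1
    refine ⟨Q1, ?_, ?_⟩
    · rw [hQ1, Polynomial.eval_mul, Polynomial.eval_pow, Polynomial.eval_X]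
      exact mul_ne_zero hQ (pow_ne_zero _ hT0)
    · have h2 : Tendsto (fun t : ℤ => t + 1) atTop atTop :=
        tendsto_atTop_add_const_right _ _ tendsto_id
      filter_upwards [h2.eventually h1] with t ht
      have h3 : HasReg (gen q v (act r (Polynomial.aeval (tau r) Q1 *
          (kE e * wJ q v J * um (sD v D) ^ m)) (FG fun _ => 1)) ∅ (t + 1))
          (∑ n ∈ Finset.range (Q1.natDegree + 1), Q1.coeff n *
            ((q : ℂ) ^ (m * D.card) * aL q v e J D (m + 1) (t - n))) := by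
        have h3 : act r (Polynomial.aeval (tau r) Q1 * (kE e * wJ q v J * um (sD v D) ^ m))
            (FG fun _ => 1) = ∑ n ∈ Finset.range (Q1.natDegree + 1),
              Q1.coeff n • act r (tau r ^ n * (kE e * wJ q v J * um (sD v D) ^ m))
                (FG fun _ => 1) := by
          rw [Polynomial.aeval_eq_sum_range, Finset.sum_mul, map_sum, LinearMap.sum_apply]
          refine Finset.sum_congr rfl fun n _ => ?_
          rw [smul_mul_assoc, map_smul, LinearMap.smul_apply]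
        rw [h3, gen_sum]
        refine HasReg.sum _ _ _ fun n _ => ?_
        rw [gen_smul, gen_tau_pow]
        refine HasReg.smul _ ?_
        have h4 : t + 1 - (n : ℤ) = (t - n) + 1 := by ring
        rw [h4]
        exact hasReg_aL q hq v e J D hD m (t - n)
      have h4 := ht.unique h3
      rw [aeval_sh]
      have h5 : ∑ n ∈ Finset.range (Q1.natDegree + 1), Q1.coeff n *
            ((q : ℂ) ^ (m * D.card) * aL q v e J D (m + 1) (t - n)) =
          (q : ℂ) ^ (m * D.card) * ∑ n ∈ Finset.range (Q1.natDegree + 1), Q1.coeff n *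
            aL q v e J D (m + 1) (t - n) := by
        rw [Finset.mul_sum]
        exact Finset.sum_congr rfl fun n _ => by ring
      rw [h5] at h4
      exact (mul_eq_zero.1 h4.symm).resolve_left (pow_ne_zero _ hq0)
  have h1 := desc_aL hr q hq v e J D T0 ⟨m0 + 1, fun lam hlam => by
    obtain ⟨n, rfl⟩ : ∃ n : ℕ, lam = (n : ℤ) + 1 := ⟨(lam - 1).toNat, by
      rw [Int.toNat_of_nonneg (by have := Int.natCast_nonneg m0; linarith)]
      ring⟩
    exact hbig n (by
      have : (m0 : ℤ) ≤ n := by linarith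
      exact_mod_cast this)⟩
  obtain ⟨Q2, hQ2, h2⟩ := h1
  refine ⟨Q2, hQ2, ?_⟩
  filter_upwards [h2] with t ht
  rw [aeval_sh] at ht
  rw [← ht]
  refine Finset.sum_congr rfl fun n _ => ?_
  congr 1
  unfold aJ aL
  refine tsum_congr fun x => ?_
  by_cases h : ∀ i, x i ≠ 0 ↔ i ∈ J
  · rw [if_pos h, iv_pos]
    refine ⟨h, fun i hi => ?_⟩
    have := (h i).2 (hD hi)
    omega
  · rw [if_neg h, iv_neg fun h' => h h'.1]

end Pool.Agent.TH216.LR
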