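import Pool.Agent.TH216.LR.Lr5
import Pool.Agent.TH216.MF.MotL
import Pool.Agent.W425.SL.Final

set_option autoImplicit false

/-! Local motivic zeta functions at the origin: affinely independent exponents. -/

namespace Pool.Agent.TH216.LR

open MvPolynomial
open Pool.Agent.W428.MOT Pool.Agent.W749.MT Pool.Agent.W425.MM.Mot
open Pool.Agent.W375.MG (Good GB0 GB1 constr_W constr_GB1 zetaG)
open Pool.Agent.TH216.MF (frc frc_le free_step cser cf Psi Omg Gd fac IsPol KRelJ RecJ formal ratR
  inRat_J FR evR geoR_mul RelG KilU nonD_of_ind)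
open Pool.Agent.TH216.MC (b0_empty b0_rel b1_rel pos_of_ray)
open Pool.Agent.W426.SM (gord ford IsRay face)
open Pool.Agent.W63.MTFin (mapMeas geo_sum L_mul ev)
open Pool.Agent.W425.SV (Kil1)
open Pool.Agent.W425.SM (Ind dm)

/-- **Local motivic zeta functions of a nondegenerate polynomial: only the rays which are not
bad.** -/
theorem fin_loc {n r : ℕ} (m : Fin r → Fin n → ℕ) (hr0 : 0 < r) (Bad : ℚ → Prop)
    (hB : ∀ q : ℕ, 2 ≤ q → ∀ e : Finset (Fin r) → ℂ, KRelJ q m Finset.univ e →
      ∀ T0 : ℂ, T0 ≠ 0 → ∀ σ : ℚ, Bad σ → Real.log ‖T0‖ / Real.log q = (σ : ℝ) →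
      RecJ q m e Finset.univ T0) :
    ∃ S : Finset (ℤ × ℤ),
      (∀ p ∈ S, p = (-1, 1) ∨ ∃ a : Fin n → ℕ, IsRay m a ∧ 0 < gord m a ∧
        ¬ Bad (((∑ i, a i : ℕ) : ℚ) / gord m a) ∧
        p = (-((∑ i, a i : ℕ) : ℤ), (gord m a : ℤ))) ∧
      ∀ (K : Type) [Field K] [CharZero K] (c : Fin r → K), NonG m c → (∀ j, c j ≠ 0) →
      ∀ (E : Set (AlgebraicClosure K)), Good E →
        zetaG (sp 0 m c 1) {0} E ∈ ratRing K S := by
  classical
  have h1 : S_K0 := Pool.Agent.W417.MT.K0.main
  have h5 : S_CP1 := Pool.Agent.W346.MTCp1.main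
  have hFree : S_Free := Pool.Agent.W417.MT.Free.main
  have hSub : S_Sub := Pool.Agent.W21.MTSub.main
  have hTay : S_Tay := Pool.Agent.W417.MT.Tay.main
  obtain ⟨l, hl, hG⟩ := formal hr0 m Finset.univ Bad hB
  set S : Finset (ℤ × ℤ) := insert (-1, 1)
    (l.toFinset.image fun a => (-((∑ i, a i : ℕ) : ℤ), (gord m a : ℤ))) with hS
  have hS1 : ((-1 : ℤ), (1 : ℤ)) ∈ S := Finset.mem_insert_self _ _
  have hS2 : ∀ a ∈ l, (-((∑ i, a i : ℕ) : ℤ), (gord m a : ℤ)) ∈ S :=
    fun a ha => Finset.mem_insert_of_mem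
      (Finset.mem_image.2 ⟨a, List.mem_toFinset.2 ha, rfl⟩)
  refine ⟨S, fun p hp => ?_, ?_⟩
  · rcases Finset.mem_insert.1 hp with rfl | hp
    · exact Or.inl rfl
    · right
      obtain ⟨a, ha, rfl⟩ := Finset.mem_image.1 hp
      obtain ⟨ha1, ha2, ha3⟩ := hl a (List.mem_toFinset.1 ha)
      exact ⟨a, ha1, ha2, ha3, rfl⟩
  · intro K _ _ c hNon hc E hE
    have hW : Constr ({0} : Set (Pt K (Fin n))) := by
      have h2 : ({0} : Set (Pt K (Fin n))) = {z | ∀ i, z i = (0 : AlgebraicClosure K)} := by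
        ext z
        simp only [Set.mem_singleton_iff, Set.mem_ofPred_eq]
        constructor
        · rintro rfl i
          rfl
        · intro h
          funext i
          exact h i
      rw [h2]
      exact Constr.all fun i => Constr.eq (IsPF.coord _) IsPF.zero
    set W : Set (Pt K (Fin n)) := {0} with hWdef
    obtain ⟨M₀, hM₀⟩ := h1 K
    set M := mapMeas M₀ (algebraMap (K0 K) (MK K)) with hM
    set Y : MK K := (((Lu K)⁻¹ : (MK K)ˣ) : MK K) with hY
    have hL : M.L * Y = 1 := L_mul hM₀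
    have hML : M.L = ((Lu K : (MK K)ˣ) : MK K) := by
      have h2 : ((Lu K : (MK K)ˣ) : MK K) * Y = 1 := Units.mul_inv _
      calc M.L = M.L * (((Lu K : (MK K)ˣ) : MK K) * Y) := by rw [h2, mul_one]
        _ = (M.L * Y) * ((Lu K : (MK K)ˣ) : MK K) := by ring
        _ = _ := by rw [hL, one_mul]
    have hsum := sum hFree hSub hTay M 0 m c 1 hW hE hNon one_pos Y hL
    -- the series
    set C : Finset (Fin n) → Finset (Fin r) → PowerSeries (MK K) := fun J τ =>
      PowerSeries.map (evR (Lu K)) (cser m J τ) with hCdef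
    have hCc : ∀ J τ N, PowerSeries.coeff N (C J τ) =
        Polynomial.eval₂ (Int.castRingHom (MK K)) Y (cp 0 m 1 J τ N N) := fun J τ N => by
      simp only [hCdef, cser]
      rw [PowerSeries.coeff_map, PowerSeries.coeff_mk]
      rfl
    set D : Finset (Fin n) → Finset (Fin r) → PowerSeries (MK K) := fun J τ =>
      PowerSeries.mk fun N => ∑ l ∈ Finset.Icc 1 N,
        if 1 * l ≤ N then Y ^ l * PowerSeries.coeff (N - 1 * l) (C J τ) else 0
      with hDdef
    have hD : ∀ J τ, D J τ = PowerSeries.C Y * PowerSeries.X * C J τ * geoR (Lu K) (-1) 1 := by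
      intro J τ
      have h6 := geo_sum Y (fun N => PowerSeries.coeff N (C J τ)) 1 one_pos
      have h7 := geoR_mul (Lu K) (-1) 1 one_pos
      rw [show (1 : ℤ).toNat = 1 from rfl, zpow_neg_one] at h7
      have h9 : PowerSeries.mk (fun N => PowerSeries.coeff N (C J τ)) = C J τ := by
        ext N
        rw [PowerSeries.coeff_mk]
      rw [h9] at h6
      have h10 : D J τ * ((1 - PowerSeries.C Y * PowerSeries.X ^ 1) * geoR (Lu K) (-1) 1) =
          PowerSeries.C Y * PowerSeries.X ^ 1 * C J τ * geoR (Lu K) (-1) 1 := by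
        rw [← h6, mul_assoc]
      rw [h7, mul_one, pow_one] at h10
      exact h10
    set b0 : Finset (Fin n) → Finset (Fin r) → MK K := fun J τ => M.χ _ (GB0 0 m c 1 W E J τ)
      with hb0
    set b1 : Finset (Fin n) → Finset (Fin r) → MK K := fun J τ => M.χ _ (GB1 0 m c 1 W E J τ)
      with hb1
    -- only the points with all coordinates zero
    have hempty : ∀ J : Finset (Fin n), J ≠ Finset.univ → ∀ z : Pt K (Option (Fin n)),
        (∀ i, z (some i) ≠ 0) → ¬ (fun i => if i ∈ J then 0 else z (some i)) ∈ W := by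
      intro J hJ z hz hW'
      obtain ⟨i, hi⟩ : ∃ i, i ∉ J := by
        by_contra hcon
        push Not at hcon
        exact hJ (Finset.eq_univ_of_forall hcon)
      have h6 : (fun i => if i ∈ J then 0 else z (some i)) = (0 : Pt K (Fin n)) := hW'
      have h7 := congrFun h6 i
      simp only [if_neg hi] at h7
      exact hz i h7
    have hempty0 : ∀ J : Finset (Fin n), J ≠ Finset.univ → ∀ z : Pt K (Fin n),
        (∀ i, z i ≠ 0) → ¬ (fun i => if i ∈ J then 0 else z i) ∈ W := by
      intro J hJ z hz hW'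
      obtain ⟨i, hi⟩ : ∃ i, i ∉ J := by
        by_contra hcon
        push Not at hcon
        exact hJ (Finset.eq_univ_of_forall hcon)
      have h6 : (fun i => if i ∈ J then 0 else z i) = (0 : Pt K (Fin n)) := hW'
      have h7 := congrFun h6 i
      simp only [if_neg hi] at h7
      exact hz i h7
    have hb0z : ∀ J : Finset (Fin n), J ≠ Finset.univ → ∀ τ, b0 J τ = 0 := by
      intro J hJ τ
      have h6 : GB0 0 m c 1 W E J τ = ∅ := by
        ext z
        simp only [GB0, Set.mem_ofPred_eq, Set.mem_empty_iff_false, iff_false]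
        rintro ⟨h7, h8, -⟩
        exact hempty0 J hJ z h8 h7
      simp only [hb0]
      rw [h6, χ_empty]
    have hb1z : ∀ J : Finset (Fin n), J ≠ Finset.univ → ∀ τ, b1 J τ = 0 := by
      intro J hJ τ
      have h6 : GB1 0 m c 1 W E J τ = ∅ := by
        ext z
        simp only [GB1, Set.mem_ofPred_eq, Set.mem_empty_iff_false, iff_false]
        rintro ⟨h7, h8, -⟩
        exact hempty J hJ z h8 h7
      simp only [hb1]
      rw [h6, χ_empty]
    set F : PowerSeries (MK K) := ∑ J : Finset (Fin n), FR (Lu K) m J (b0 J) (b1 J) with hF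
    have hFmem : F ∈ ratRing K S := by
      refine (ratRing K S).sum_mem fun J _ => ?_
      by_cases hJ : J = Finset.univ
      · subst hJ
        refine inRat_J (Lu K) hS1 m Finset.univ l (fun a ha => ⟨(hl a ha).2.1, hS2 a ha⟩) hG
          (M.χ _ (GB1 0 m c 1 W E Finset.univ ∅)) (fun _ => True) (fun _ _ _ _ => trivial)
          (fun _ h => absurd trivial h) (b0 Finset.univ) (b1 Finset.univ)
          (b0_empty M m c hE Finset.univ) rfl ?_ ?_
        · intro i hi j0 hj0 τ hτ _
          rw [← hML]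
          exact b0_rel hFree hSub M m c hc hW hE Finset.univ i hi j0 hj0 τ hτ
        · intro i hi j0 hj0 τ hτ _
          rw [← hML]
          exact b1_rel hFree hSub M m c hc hW hE Finset.univ i hi j0 hj0 τ hτ
      · have h6 : FR (Lu K) m J (b0 J) (b1 J) = 0 := by
          unfold FR
          refine Finset.sum_eq_zero fun τ _ => ?_
          rw [hb0z J hJ, hb1z J hJ]
          simp
        rw [h6]
        exact (ratRing K S).zero_mem
    have hz : zetaG (sp 0 m c 1) W E =
        F - PowerSeries.C (PowerSeries.coeff 0 F) + PowerSeries.C (PowerSeries.coeff 0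
          (zetaG (sp 0 m c 1) W E)) := by
      ext N
      by_cases hN : N = 0
      · subst hN
        rw [map_add, map_sub, PowerSeries.coeff_C, if_pos rfl, PowerSeries.coeff_C, if_pos rfl,
          sub_self, zero_add]
      · rw [map_add, map_sub, PowerSeries.coeff_C, if_neg hN, PowerSeries.coeff_C, if_neg hN,
          sub_zero, add_zero, zetaG, PowerSeries.coeff_mk]
        have h6 := hsum N (by omega)
        have h7 : algebraMap (K0 K) (MK K) (cls (Fin n × Fin (N + 1))
            (Pool.Agent.W375.MG.JetG (sp 0 m c 1) W E N)) *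
            (((Lu K) ^ (-((n * N : ℕ) : ℤ)) : (MK K)ˣ) : MK K) =
            M.χ _ (Pool.Agent.W375.MG.JetG (sp 0 m c 1) W E N) * Y ^ (n * N) := by
          rw [zpow_neg, zpow_natCast, ← inv_pow, Units.val_pow_eq_pow_val, ← hM₀]
          rfl
        rw [h7, h6, hF, map_sum]
        refine Finset.sum_congr rfl fun J _ => ?_
        unfold FR
        rw [map_sum]
        refine Finset.sum_congr rfl fun τ _ => ?_
        change _ = PowerSeries.coeff N (PowerSeries.C (((Lu K : (MK K)ˣ) : MK K) ^ frc m J τ) *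
          (PowerSeries.C (b0 J τ) * C J τ + PowerSeries.C (b1 J τ) *
            (PowerSeries.C Y * PowerSeries.X * C J τ * geoR (Lu K) (-1) 1)))
        rw [← hD, ← hML, PowerSeries.coeff_C_mul, map_add, PowerSeries.coeff_C_mul,
          PowerSeries.coeff_C_mul, hCc, hDdef, PowerSeries.coeff_mk, Finset.mul_sum]
        congr 2
        refine Finset.sum_congr rfl fun i _ => ?_
        split_ifs with hi
        · rw [hCc, h5 0 m 1 J τ hr0 one_pos N (N - 1 * i) (Nat.sub_le _ _), mul_assoc]
        · rw [mul_zero]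
    rw [hz]
    exact (ratRing K S).add_mem ((ratRing K S).sub_mem hFmem
      (Pool.Agent.W63.MTFin.C_mem _ _)) (Pool.Agent.W63.MTFin.C_mem _ _)

variable {r N : ℕ}

/-- the relation for affinely independent exponents -/
theorem relG_of_relL (v : Fin r → Fin N → ℕ) (p : Polynomial ℂ)
    (h : Pool.Agent.W425.SL.RelL v p) :
    RelG v (Kil1 v) (KilU v fun j => -((sD v Finset.univ j + 0 : ℕ) : ℤ)) p := by
  classical
  obtain ⟨M, Cs, q, Cs0, q0, h1, h0, hrel⟩ := h
  refine ⟨M, Cs.card, Cs0.card, fun k => (Cs.equivFin.symm k).1,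
    fun k => Pool.Agent.H628R4.TZ.Bc v (Cs.equivFin.symm k).1,
    fun k => q (Cs.equivFin.symm k).1, fun k => (Cs0.equivFin.symm k).1,
    fun k => q0 (Cs0.equivFin.symm k).1, fun k => ?_, fun k => ?_, ?_⟩
  · have h2 := h1 _ (Cs.equivFin.symm k).2
    refine ⟨fun _ => 0, fun _ => le_rfl, ?_, fun i hi => ?_⟩
    · simp only [add_zero]
      exact_mod_cast h2
    · simp only [add_zero]
      have h3 : ∑ j, (Cs.equivFin.symm k).1 j * (v j i : ℤ) ≤ 0 := by
        by_contra hcon
        apply hi
        unfold Pool.Agent.H628R4.TZ.Bc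
        rw [Finset.mem_filter]
        exact ⟨Finset.mem_univ _, by push Not at hcon; exact hcon⟩
      exact_mod_cast h3
  · obtain ⟨h2, h3, i0, h4⟩ := h0 _ (Cs0.equivFin.symm k).2
    refine ⟨fun _ => 0, fun _ => le_rfl, ?_, fun i => ?_, ?_⟩
    · simp only [add_zero]
      exact_mod_cast h2
    · simp only [add_zero]
      exact_mod_cast h3 i
    · simp only [add_zero]
      set c := (Cs0.equivFin.symm k).1 with hc
      have h5 : ∑ j, c j * (-((sD v Finset.univ j : ℕ) : ℤ)) = -∑ i, ∑ j, c j * (v j i : ℤ) := by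
        unfold sD
        push_cast
        rw [Finset.sum_comm]
        simp only [mul_neg, Finset.sum_neg_distrib, Finset.mul_sum]
      have h6 : 0 < ∑ j, c j * (-((sD v Finset.univ j : ℕ) : ℤ)) := by
        rw [h5]
        have h7 : ∑ i, ∑ j, c j * (v j i : ℤ) < 0 :=
          Finset.sum_neg' (fun i _ => h3 i) ⟨i0, Finset.mem_univ _, h4⟩
        linarith
      exact_mod_cast h6
  · rw [hrel]
    congr 1
    · rw [← Finset.sum_coe_sort, ← Cs.equivFin.symm.sum_comp]
    · rw [← Finset.sum_coe_sort, ← Cs0.equivFin.symm.sum_comp]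

end Pool.Agent.TH216.LR
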