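import Pool.Agent.TH216.LR.Lr6

set_option autoImplicit false

/-! Local motivic zeta functions at the origin: affinely independent exponents, final form. -/

namespace Pool.Agent.TH216.LR

open MvPolynomial Pool.Agent.H628R4.TP Pool.Agent.W425.MM Pool.Agent.W425.GN
open Pool.Agent.W425.ND (spa)
open Pool.Agent.W426.SM (gord IsRay face)
open Pool.Agent.W425.SV (Kil1)
open Pool.Agent.W425.SM (Ind)
open Pool.Agent.TH216.MF (RelG KilU KRelJ RecJ nonD_of_ind)
open Pool.Agent.TH216.MC (pos_of_ray)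
open Pool.Agent.W428.MOT (Pt Constr ratRing sp LuMu InRat zetaE)
open Pool.Agent.W375.MG (zetaG Good)

variable {r N : ℕ}

/-- `b = (s + 1) P` with the relation for `P` -/
theorem relL_of_local (hr : 1 ≤ r) (v : Fin r → Fin N → ℕ) (hv : Ind v) (hv0 : ∀ j, v j ≠ 0)
    (a : Fin r → ℂ) (ha : ∀ j, a j ≠ 0) (b : Polynomial ℂ)
    (hb : IsLocalBFunction (spa v a) b) : ∃ P, b = (Polynomial.X + 1) * P ∧
      RelG v (Kil1 v) (KilU v fun j => -((sD v Finset.univ j + 0 : ℕ) : ℤ)) P := by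
  have hb' : Pool.Agent.W425.SL.IsLocalBFunction (Pool.Agent.W425.SM.sparse v a) b :=
    Pool.Agent.W425.SL.toSL hb
  obtain ⟨h1, h2⟩ := Pool.Agent.W368.SL.taskL1 (Pool.Agent.W425.SM.sparse v a) b
    (Pool.Agent.W425.SL.sparse_ne_zero hr hv a ha) (Pool.Agent.W425.SL.sparse_const hv0 a) hb'
  obtain ⟨p, hp⟩ := Polynomial.dvd_iff_isRoot.2 (show b.IsRoot (-1) from h1)
  have hp' : b = (Polynomial.X + 1) * p := by
    rw [hp]
    congr 1
    simp
  refine ⟨p, hp', relG_of_relL v p ?_⟩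
  rw [hp'] at h2
  exact Pool.Agent.W596.SL.taskL2 v a p hv ha h2

/-- **Affinely independent exponents, at the origin.** -/
theorem ind_loc {k : Type} [Field k] [Algebra k ℂ] (hr : 1 ≤ r) (v : Fin r → Fin N → ℕ)
    (hv : Ind v) (hv0 : ∀ j, v j ≠ 0) (c : Fin r → k) (hc : ∀ j, c j ≠ 0) :
    ∃ S : Finset (ℤ × ℤ),
      (∀ p ∈ S, p.1 < 0 ∧ 0 < p.2 ∧ ∀ b : Polynomial ℂ, IsLocalBFunction
        (spa v (fun j => algebraMap k ℂ (c j))) b → b.eval ((p.1 : ℂ) / p.2) = 0) ∧
      (∀ (K : Type) [Field K] [Algebra k K] (E : Set (AlgebraicClosure K)), Good E →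
        zetaG (spa v (fun j => algebraMap k K (c j))) {0} E ∈ ratRing K S) := by
  classical
  have hr0 : 0 < r := by omega
  have hkc : CharZero k := RingHom.charZero (algebraMap k ℂ)
  set f : MvPolynomial (Fin N) ℂ := spa v (fun j => algebraMap k ℂ (c j)) with hf
  have hcC : ∀ j, algebraMap k ℂ (c j) ≠ 0 := fun j => (map_ne_zero _).2 (hc j)
  have hnd : NonD v (fun j => algebraMap k ℂ (c j)) := nonD_of_ind hr0 v hv _ hcC
  have hA := relL_of_local hr v hv hv0 (fun j => algebraMap k ℂ (c j)) hcC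
  obtain ⟨S, hS, hz1⟩ := fin_loc v hr0
    (fun σ => ∃ b, IsLocalBFunction f b ∧ b.eval (-(σ : ℂ)) ≠ 0) (by
      rintro q hq e he T0 hT0 σ ⟨b, hb, hne⟩ hlog
      obtain ⟨P, h1, h2⟩ := hA b hb
      refine recJ_loc hr0 q hq v P Finset.univ Finset.univ (Finset.Subset.refl _) 0 h2 e he T0
        hT0 ?_
      intro h3
      apply hne
      have h4 : ((-Real.log ‖T0‖ / Real.log q : ℝ) : ℂ) = -(σ : ℂ) := by
        rw [neg_div, hlog]
        push_cast
        rfl
      rw [h4] at h3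
      rw [h1, Polynomial.eval_mul, h3, mul_zero])
  have hsp : ∀ {K : Type} [Field K] (c' : Fin r → K), spa v c' = sp 0 v c' 1 := by
    intro K _ c'
    unfold sp spa
    simp
  refine ⟨S, fun p hp => ?_, ?_⟩
  · rcases hS p hp with rfl | ⟨a, ha, hg, hn, rfl⟩
    · refine ⟨by norm_num, by norm_num, fun b hb => ?_⟩
      obtain ⟨P, h1, -⟩ := hA b hb
      rw [h1, Polynomial.eval_mul]
      simp
    · refine ⟨pos_of_ray ha, Int.natCast_pos.2 hg, fun b hb => ?_⟩
      by_contra hne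
      apply hn
      refine ⟨b, hb, ?_⟩
      have e : -((((∑ i, a i : ℕ) : ℚ) / gord v a : ℚ) : ℂ) =
          ((-((∑ i, a i : ℕ) : ℤ) : ℤ) : ℂ) / ((gord v a : ℤ) : ℂ) := by
        push_cast
        ring
      rw [e]
      exact hne
  · intro K _ _ E hE
    have hK : CharZero K := charZero_of_injective_algebraMap (algebraMap k K).injective
    rw [hsp]
    refine hz1 K _ (nonG_of_nonD _ _ ?_) (fun j => (map_ne_zero _).2 (hc j)) E hE
    have h4 := nonD_ext (k := k) (L := AlgebraicClosure K) _ _ hnd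
    have h5 : (fun j => algebraMap K (AlgebraicClosure K) (algebraMap k K (c j))) =
        fun j => algebraMap k (AlgebraicClosure K) (c j) := by
      funext j
      rw [← IsScalarTower.algebraMap_apply]
    rw [h5]
    exact h4

end Pool.Agent.TH216.LR
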